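import Mathlib
import Pool.Agent.H322R3.HypDefs

set_option autoImplicit false

/-! Cannon-Thurston maps of free subgroups of hyperbolic groups: definitions. -/

namespace Pool.Agent.X185.CT

open Pool.Agent.H322R3.Hyp Filter Topology

/-- The boundary of the free group `F_r`: infinite reduced words in the basis and its inverses
(a letter is a pair of a basis index and a sign). -/
def Bdy (r : ℕ) : Type :=
  {p : ℕ → Fin r × Bool // ∀ n, (p n).1 = (p (n + 1)).1 → (p n).2 = (p (n + 1)).2}

/-- The prefix of length `n`, as a list of letters. -/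
def preL {r : ℕ} (p : Bdy r) (n : ℕ) : List (Fin r × Bool) := (List.range n).map p.1

/-- The prefix of length `n`, as an element of `F_r`. -/
def pre {r : ℕ} (p : Bdy r) (n : ℕ) : FreeGroup (Fin r) := FreeGroup.mk (preL p n)

/-- The elements `w k` of `F_r` converge to the point `p` of `∂F_r`: each prefix of `p` is a
prefix of the reduced word of `w k` for all large `k`. -/
def TendsTo {r : ℕ} (w : ℕ → FreeGroup (Fin r)) (p : Bdy r) : Prop :=
  ∀ K : ℕ, ∃ N : ℕ, ∀ k, N ≤ k → preL p K <+: (w k).toWord

section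
variable {Γ : Type*} [Group Γ] {r : ℕ}

/-- `f` is the Cannon-Thurston map of `i : F_r → Γ`: whenever elements `w k` of `F_r` converge
to `p ∈ ∂F_r`, their images `i (w k)` converge to `f p` in the Gromov boundary of `Γ`. -/
def IsCT (S : Set Γ) (i : FreeGroup (Fin r) →* Γ) (f : Bdy r → Boundary S) : Prop :=
  ∀ (p : Bdy r) (w : ℕ → FreeGroup (Fin r)), TendsTo w p →
    ∃ h : ConvInf S (fun k => i (w k)), bmk S ⟨fun k => i (w k), h⟩ = f p

/-- Endpoints of the Cannon-Thurston lamination: points identified by `f` with another point. -/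
def endpoints {S : Set Γ} (f : Bdy r → Boundary S) : Set (Bdy r) :=
  {p | ∃ q, q ≠ p ∧ f q = f p}

/-- A geodesic ray in the Cayley graph of `Γ` with respect to `S`. -/
def IsGeodRay (S : Set Γ) (γ : ℕ → Γ) : Prop :=
  ∀ j k : ℕ, wdist S (γ j) (γ k) = |(j : ℝ) - k|

/-- Conical limit points, geometric definition: some geodesic ray converging to `z` passes within
a bounded distance of infinitely many distinct elements of `F_r`. -/
def ConicalGeo (S : Set Γ) (i : FreeGroup (Fin r) →* Γ) (z : Boundary S) : Prop :=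
  ∃ γ : ℕ → Γ, IsGeodRay S γ ∧ (∃ h : ConvInf S γ, bmk S ⟨γ, h⟩ = z) ∧
    ∃ R : ℝ, {w : FreeGroup (Fin r) | ∃ k, wdist S (γ k) (i w) ≤ R}.Infinite

/-- Conical limit points, dynamical definition: there are `h n ∈ F_r` and points `a ≠ b` with
`h n · z → a` and `h n · y → b` for all `y ≠ z`. -/
def ConicalDyn {S : Set Γ} (hS : Subgroup.closure S = ⊤) (i : FreeGroup (Fin r) →* Γ)
    (z : Boundary S) : Prop :=
  ∃ (h : ℕ → FreeGroup (Fin r)) (a b : Boundary S), a ≠ b ∧
    Tendsto (fun n => bsmul hS (i (h n)) z) atTop (𝓝 a) ∧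
    ∀ y, y ≠ z → Tendsto (fun n => bsmul hS (i (h n)) y) atTop (𝓝 b)

end

section
variable {r : ℕ} {T : Type*} [MetricSpace T] [MulAction (FreeGroup (Fin r)) T]

/-- `F_r` acts properly and cocompactly by isometries on the (real) tree `T`. Every point of the
unprojectivised outer space is such a `T`. -/
structure IsTreeAction (r : ℕ) (T : Type*) [MetricSpace T] [MulAction (FreeGroup (Fin r)) T] :
    Prop where
  /-- `T` is geodesic. -/
  geod : ∀ x y : T, ∃ γ : ℝ → T, γ 0 = x ∧ γ (dist x y) = y ∧
    ∀ s ∈ Set.Icc (0 : ℝ) (dist x y), ∀ t ∈ Set.Icc (0 : ℝ) (dist x y),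
      dist (γ s) (γ t) = |s - t|
  /-- `T` satisfies the four point condition with constant zero. -/
  tree : ∀ x y z w : T, dist x z + dist y w ≤ max (dist x y + dist z w) (dist x w + dist y z)
  /-- The action is isometric. -/
  isom : ∀ (g : FreeGroup (Fin r)) (x y : T), dist (g • x) (g • y) = dist x y
  /-- The action is cobounded. -/
  cobdd : ∃ D : ℝ, ∀ x y : T, ∃ g : FreeGroup (Fin r), dist x (g • y) ≤ D
  /-- The action is proper. -/
  proper : ∀ (x : T) (R : ℝ), {g : FreeGroup (Fin r) | dist x (g • x) ≤ R}.Finite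

/-- The Gromov product `(x | y)` based at `x0` in a metric space. -/
noncomputable def gpT (x0 x y : T) : ℝ := (dist x0 x + dist x0 y - dist x y) / 2

/-- The distance of `∂F_r` is the visual distance `a ^ (-(p · q))`, where `(p · q)` is the Gromov
product of `p` and `q` based at `x0` in the tree `T` (the limit of the Gromov products of the
orbit points of the prefixes, which is the length of the common part of the two rays). -/
def IsVisual (x0 : T) (a : ℝ) [MetricSpace (Bdy r)] : Prop :=
  ∀ p q : Bdy r, p ≠ q → ∃ L : ℝ,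
    Tendsto (fun k : ℕ × ℕ => gpT x0 (pre p k.1 • x0) (pre q k.2 • x0)) atTop (𝓝 L) ∧
    dist p q = a ^ (-L)

end

end Pool.Agent.X185.CT
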