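import Pool.Agent.X185.CT.Free

set_option autoImplicit false

/-! Dimension bounds. -/

namespace Pool.Agent.X185.CT

open Filter Topology MeasureTheory
open scoped ENNReal NNReal

/-- A covering criterion for an upper bound of the Hausdorff dimension. -/
theorem dimH_le_of_covers {X : Type*} [MetricSpace X] (s : Set X) (t : ℝ≥0)
    (ι : ℕ → Type) [∀ n, Fintype (ι n)] (T : ∀ n, ι n → Set X) (d : ℕ → ℝ≥0)
    (hd : Tendsto d atTop (𝓝 0))
    (hdiam : ∀ n i, ∀ x ∈ T n i, ∀ y ∈ T n i, dist x y ≤ d n)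
    (hcov : ∀ n, s ⊆ ⋃ i, T n i) (B : ℝ≥0)
    (hB : ∀ n, (Fintype.card (ι n) : ℝ≥0) * (d n) ^ (t : ℝ) ≤ B) : dimH s ≤ t := by
  borelize X
  have hED : ∀ n i, Metric.ediam (T n i) ≤ d n := by
    intro n i
    apply Metric.ediam_le
    intro x hx y hy
    rw [edist_dist]
    apply ENNReal.ofReal_le_of_le_toReal
    simpa using hdiam n i x hx y hy
  have h := Measure.hausdorffMeasure_le_liminf_sum (l := atTop) (t : ℝ) s (fun n => (d n : ℝ≥0∞))
    (by
      have := (ENNReal.tendsto_coe (f := atTop) (m := d) (a := 0)).2 hd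
      simpa using this) T (Eventually.of_forall hED) (Eventually.of_forall hcov)
  have h2 : μH[(t : ℝ)] s ≤ B := by
    refine h.trans ?_
    refine liminf_le_of_le (by isBoundedDefault) ?_
    intro b hb
    obtain ⟨n, hn⟩ := hb.exists
    refine hn.trans ?_
    calc ∑ i, Metric.ediam (T n i) ^ (t : ℝ) ≤ ∑ _i : ι n, (d n : ℝ≥0∞) ^ (t : ℝ) :=
          Finset.sum_le_sum (fun i _ => ENNReal.rpow_le_rpow (hED n i) t.2)
      _ = ((Fintype.card (ι n) : ℝ≥0) * (d n) ^ (t : ℝ) : ℝ≥0) := by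
          rw [Finset.sum_const, Finset.card_univ, nsmul_eq_mul]
          push_cast
          rw [ENNReal.coe_rpow_of_nonneg _ (NNReal.coe_nonneg t)]
      _ ≤ B := by exact_mod_cast hB n
  apply dimH_le_of_hausdorffMeasure_ne_top
  exact (h2.trans_lt ENNReal.coe_lt_top).ne

variable {r : ℕ}

/-- Points all of whose far segments of length `m` belong to `V`. -/
def ZS (V : Set (FreeGroup (Fin r))) (m N : ℕ) : Set (Bdy r) :=
  {p | ∀ n, N ≤ n → (pre p n)⁻¹ * pre p (n + m) ∈ V}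

theorem dimH_ZS [MetricSpace (Bdy r)] {C ρ : ℝ} (hC : 0 ≤ C) (hρ0 : 0 < ρ) (hρ1 : ρ < 1)
    (hdist : ∀ (p q : Bdy r) (k : ℕ), (∀ j < k, p.1 j = q.1 j) → dist p q ≤ C * ρ ^ k)
    (V : Set (FreeGroup (Fin r))) (hV : V.Finite) {m : ℕ} (hm : 1 ≤ m) (N : ℕ) (t : ℝ≥0)
    (ht : (V.ncard : ℝ) * (ρ ^ m) ^ (t : ℝ) ≤ 1) : dimH (ZS V m N) ≤ t := by
  classical
  have _ : Fintype V := hV.fintype
  obtain ⟨c, hc⟩ : ∃ c : ℝ≥0, (c : ℝ) = C := ⟨⟨C, hC⟩, rfl⟩
  obtain ⟨ρ', hρ'⟩ : ∃ ρ' : ℝ≥0, (ρ' : ℝ) = ρ := ⟨⟨ρ, hρ0.le⟩, rfl⟩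
  have hρ'1 : ρ' < 1 := by rw [← NNReal.coe_lt_one, hρ']; exact hρ1
  have hρm : ρ' ^ m < 1 := pow_lt_one₀ zero_le hρ'1 (by omega)
  apply dimH_le_of_covers (ZS V m N) t (fun j => (Fin N → Fin r × Bool) × (Fin j → V))
    (fun j x => {p | p ∈ ZS V m N ∧ (∀ l : Fin N, p.1 l = x.1 l) ∧
      ∀ l : Fin j, (pre p (N + l * m))⁻¹ * pre p (N + l * m + m) = x.2 l})
    (fun j => c * (ρ' ^ m) ^ j)
    (by
      have h1 := NNReal.tendsto_pow_atTop_nhds_zero_of_lt_one hρm
      have h2 := h1.const_mul c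
      simpa using h2)
    (by
      rintro j ⟨x1, x2⟩ p ⟨hp1, hp2, hp3⟩ q ⟨hq1, hq2, hq3⟩
      have hpre : ∀ l : ℕ, l ≤ j → pre p (N + l * m) = pre q (N + l * m) := by
        intro l
        induction l with
        | zero =>
          intro _
          simp only [zero_mul, add_zero]
          unfold pre
          rw [pre_eq_of_agree]
          intro a ha
          exact (hp2 ⟨a, ha⟩).trans (hq2 ⟨a, ha⟩).symm
        | succ l ih =>
          intro hl
          have h1 := ih (by omega)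
          have h2 := hp3 ⟨l, by omega⟩
          have h3 := hq3 ⟨l, by omega⟩
          have h4 := h2.trans h3.symm
          simp only at h4
          rw [h1] at h4
          have h5 := mul_left_cancel h4
          have e : N + (l + 1) * m = N + l * m + m := by ring
          rw [e]; exact h5
      have h1 := agree_of_pre_eq (hpre j le_rfl)
      have h2 := hdist p q _ h1
      push_cast
      rw [hc, hρ']
      refine h2.trans ?_
      apply mul_le_mul_of_nonneg_left _ hC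
      rw [← pow_mul]
      apply pow_le_pow_of_le_one hρ0.le hρ1.le
      rw [mul_comm]; omega)
    (by
      intro j p hp
      rw [Set.mem_iUnion]
      refine ⟨⟨fun l => p.1 l, fun l => ⟨(pre p (N + l * m))⁻¹ * pre p (N + l * m + m),
        hp _ (by omega)⟩⟩, hp, fun l => rfl, fun l => rfl⟩)
    ((2 * r : ℝ≥0) ^ N * c ^ (t : ℝ))
  intro j
  have hcard : (Fintype.card ((Fin N → Fin r × Bool) × (Fin j → V)) : ℝ≥0) =
      (2 * r : ℝ≥0) ^ N * (V.ncard : ℝ≥0) ^ j := by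
    rw [Fintype.card_prod, Fintype.card_fun, Fintype.card_fun]
    simp only [Fintype.card_prod, Fintype.card_fin, Fintype.card_bool, Set.ncard_eq_toFinset_card',
      Set.toFinset_card]
    push_cast
    ring
  have ht' : (V.ncard : ℝ≥0) * (ρ' ^ m) ^ (t : ℝ) ≤ 1 := by
    rw [← NNReal.coe_le_coe]
    push_cast
    rw [hρ']
    exact ht
  calc (Fintype.card ((Fin N → Fin r × Bool) × (Fin j → V)) : ℝ≥0) *
        (c * (ρ' ^ m) ^ j) ^ (t : ℝ)
      = (2 * r : ℝ≥0) ^ N * c ^ (t : ℝ) * ((V.ncard : ℝ≥0) * (ρ' ^ m) ^ (t : ℝ)) ^ j := by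
        rw [hcard, NNReal.mul_rpow, mul_pow]
        have e : ((ρ' ^ m) ^ j) ^ (t : ℝ) = ((ρ' ^ m) ^ (t : ℝ)) ^ j := by
          rw [← NNReal.rpow_natCast (ρ' ^ m) j, ← NNReal.rpow_mul, mul_comm, NNReal.rpow_mul,
            NNReal.rpow_natCast]
        rw [e]; ring
    _ ≤ (2 * r : ℝ≥0) ^ N * c ^ (t : ℝ) * 1 := by
        apply mul_le_mul_of_nonneg_left _ zero_le
        exact pow_le_one₀ zero_le ht'
    _ = _ := mul_one _

end Pool.Agent.X185.CT
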