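import Pool.Agent.X185.CT.Free

set_option autoImplicit false

/-! Visual metrics coming from tree actions. -/

namespace Pool.Agent.X185.CT

open Filter Topology

section tree
variable {T : Type*} [MetricSpace T]

/-- Four point condition in terms of Gromov products. -/
lemma gpT_ultra (htree : ∀ x y z w : T, dist x z + dist y w ≤
    max (dist x y + dist z w) (dist x w + dist y z)) (w x y z : T) :
    min (gpT w x y) (gpT w y z) ≤ gpT w x z := by
  unfold gpT
  have h := htree x y z w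
  have c1 := dist_comm x w
  have c2 := dist_comm y w
  have c3 := dist_comm z w
  rcases le_max_iff.1 h with h' | h'
  · apply min_le_iff.2; left; linarith
  · apply min_le_iff.2; right; linarith

lemma gpT_comm (w x y : T) : gpT w x y = gpT w y x := by
  unfold gpT; rw [dist_comm x y]; ring

lemma gpT_le_left (w x y : T) : gpT w x y ≤ dist w x := by
  unfold gpT
  have := dist_triangle w x y
  linarith

lemma gpT_nonneg (w x y : T) : 0 ≤ gpT w x y := by
  unfold gpT
  have := dist_triangle_left x y w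
  linarith

/-- One side of a path with small jumps in a tree: there is a point of the path near the branch
point. -/
lemma near_branch (htree : ∀ x y z w : T, dist x z + dist y w ≤
    max (dist x y + dist z w) (dist x w + dist y z)) (a : ℕ → T) (C : ℝ) (m : ℕ)
    (hC : ∀ j < m, dist (a j) (a (j + 1)) ≤ C) {w : T} {η : ℝ} (hη : 0 < η)
    (h0 : η ≤ dist w (a 0)) (hm : a m = w) :
    ∃ i ≤ m, dist w (a i) ≤ C + η ∧ η ≤ gpT w (a i) (a 0) := by
  classical
  -- the last index with large product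
  have hex : ∃ j, ¬ (η ≤ gpT w (a j) (a 0)) := by
    refine ⟨m, ?_⟩
    rw [hm]
    unfold gpT
    rw [dist_self]
    simp; exact hη
  obtain ⟨j, hj, hmin⟩ : ∃ j, ¬ (η ≤ gpT w (a j) (a 0)) ∧ ∀ l < j, η ≤ gpT w (a l) (a 0) :=
    ⟨Nat.find hex, Nat.find_spec hex, fun l hl => by
      by_contra h; exact Nat.find_min hex hl h⟩
  have hjm : j ≤ m := by
    by_contra hlt
    push Not at hlt
    have := hmin m hlt
    rw [hm] at this
    unfold gpT at this
    rw [dist_self] at this
    simp at this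
    linarith
  have hj0 : j ≠ 0 := by
    rintro rfl
    apply hj
    unfold gpT
    rw [dist_self]
    linarith
  obtain ⟨i, rfl⟩ : ∃ i, j = i + 1 := ⟨j - 1, by omega⟩
  have hi := hmin i (by omega)
  refine ⟨i, by omega, ?_, hi⟩
  push Not at hj
  have h1 := gpT_ultra htree w (a (i + 1)) (a i) (a 0)
  have h2 : gpT w (a (i + 1)) (a i) ≤ gpT w (a (i + 1)) (a 0) := by
    rcases min_le_iff.1 h1 with h | h
    · exact h
    · linarith
  have h3 := gpT_le_left w (a (i + 1)) (a 0)
  have h4 := hC i (by omega)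
  rw [dist_comm] at h4
  unfold gpT at *
  linarith

end tree

section action
variable {r : ℕ} {T : Type*} [MetricSpace T] [MulAction (FreeGroup (Fin r)) T]

lemma norm_chain (g : ℕ → FreeGroup (Fin r)) (M : ℕ)
    (h : ∀ j, ((g j)⁻¹ * g (j + 1)).norm ≤ M) (n : ℕ) : ((g 0)⁻¹ * g n).norm ≤ n * M := by
  induction n with
  | zero => simp
  | succ n ih =>
    have e : (g 0)⁻¹ * g (n + 1) = ((g 0)⁻¹ * g n) * ((g n)⁻¹ * g (n + 1)) := by group
    rw [e]
    refine (FreeGroup.norm_mul_le _ _).trans ?_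
    have := h n
    calc _ ≤ n * M + M := by omega
      _ = (n + 1) * M := by ring

/-- The easy part of the Milnor-Schwarz lemma. -/
lemma milnor (hT : IsTreeAction r T) (x0 : T) :
    ∃ M : ℝ, 1 ≤ M ∧ ∀ w : FreeGroup (Fin r), (w.norm : ℝ) ≤ M * dist x0 (w • x0) + 3 * M := by
  obtain ⟨D, hD⟩ := hT.cobdd
  have hD0 : 0 ≤ D := by
    obtain ⟨g, hg⟩ := hD x0 x0
    exact dist_nonneg.trans hg
  obtain ⟨M0, hM0⟩ : ∃ M0 : ℕ, ∀ g : FreeGroup (Fin r), dist x0 (g • x0) ≤ 2 * D + 1 →
      g.norm ≤ M0 := by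
    have hfin := (hT.proper x0 (2 * D + 1)).image FreeGroup.norm
    obtain ⟨M0, hM0⟩ := hfin.bddAbove
    exact ⟨M0, fun g hg => hM0 ⟨g, hg, rfl⟩⟩
  refine ⟨M0 + 1, by linarith [Nat.cast_nonneg (α := ℝ) M0], fun w => ?_⟩
  obtain ⟨γ, hγ0, hγ1, hγ⟩ := hT.geod x0 (w • x0)
  obtain ⟨d, hd⟩ : ∃ d, d = dist x0 (w • x0) := ⟨_, rfl⟩
  rw [← hd] at hγ1 hγ ⊢
  have hd0 : 0 ≤ d := hd ▸ dist_nonneg
  have hy : ∀ j : ℕ, ∃ g : FreeGroup (Fin r), dist (γ (min (j : ℝ) d)) (g • x0) ≤ D :=
    fun j => hD _ _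
  choose g hg using hy
  have hmem : ∀ j : ℕ, min (j : ℝ) d ∈ Set.Icc (0 : ℝ) d := fun j =>
    ⟨le_min (Nat.cast_nonneg _) hd0, min_le_right _ _⟩
  have hstep : ∀ j : ℕ, ((g j)⁻¹ * g (j + 1)).norm ≤ M0 := by
    intro j
    apply hM0
    have h1 : dist x0 (((g j)⁻¹ * g (j + 1)) • x0) = dist (g j • x0) (g (j + 1) • x0) := by
      rw [← hT.isom (g j) x0, smul_smul, mul_inv_cancel_left]
    rw [h1]
    have h2 := hγ _ (hmem j) _ (hmem (j + 1))
    have h3 : |min (j : ℝ) d - min ((j + 1 : ℕ) : ℝ) d| ≤ 1 := by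
      have := abs_min_sub_min_le_max (j : ℝ) d ((j + 1 : ℕ) : ℝ) d
      refine this.trans ?_
      push_cast
      simp
    have h4 := hg j
    have h5 := hg (j + 1)
    have h6 := dist_triangle4 (g j • x0) (γ (min (j : ℝ) d)) (γ (min ((j + 1 : ℕ) : ℝ) d))
      (g (j + 1) • x0)
    have h7 := dist_comm (g j • x0) (γ (min (j : ℝ) d))
    rw [h7, h2] at h6
    linarith
  obtain ⟨n, hn⟩ : ∃ n : ℕ, n = ⌈d⌉₊ := ⟨_, rfl⟩
  have hn1 : d ≤ n := hn ▸ Nat.le_ceil d
  have hn2 : (n : ℝ) < d + 1 := hn ▸ Nat.ceil_lt_add_one hd0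
  have hchain := norm_chain g M0 hstep n
  have h0 : (g 0).norm ≤ M0 := by
    apply hM0
    have := hg 0
    rw [Nat.cast_zero, min_eq_left hd0, hγ0] at this
    linarith
  have h1 : ((g n)⁻¹ * w).norm ≤ M0 := by
    apply hM0
    have := hg n
    rw [min_eq_right hn1, hγ1] at this
    have h1 : dist x0 (((g n)⁻¹ * w) • x0) = dist (g n • x0) (w • x0) := by
      rw [← hT.isom (g n) x0, smul_smul, mul_inv_cancel_left]
    rw [h1, dist_comm]
    linarith
  have e : w = g 0 * (((g 0)⁻¹ * g n) * ((g n)⁻¹ * w)) := by group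
  have h2 : w.norm ≤ M0 + (n * M0 + M0) := by
    conv_lhs => rw [e]
    refine (FreeGroup.norm_mul_le _ _).trans ?_
    have := FreeGroup.norm_mul_le ((g 0)⁻¹ * g n) ((g n)⁻¹ * w)
    omega
  have h3 : (w.norm : ℝ) ≤ M0 + (n * M0 + M0) := by exact_mod_cast h2
  have h4 : (0 : ℝ) ≤ M0 := Nat.cast_nonneg _
  nlinarith

lemma norm_fwd (p : Bdy r) {n m : ℕ} (h : n ≤ m) : ((pre p n)⁻¹ * pre p m).norm = m - n := by
  unfold FreeGroup.norm
  rw [toWord_fwd p h]; simp

/-- Orbit points of prefixes are close to the geodesics between earlier and later ones. -/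
lemma bounded_back (hT : IsTreeAction r T) (x0 : T) : ∃ D : ℝ, ∀ (p : Bdy r) (k m : ℕ), k ≤ m →
    gpT (pre p k • x0) x0 (pre p m • x0) ≤ D := by
  obtain ⟨M, hM1, hM⟩ := milnor hT x0
  -- jump bound
  obtain ⟨C, hC0, hC⟩ : ∃ C : ℝ, 0 ≤ C ∧ ∀ (p : Bdy r) (j : ℕ),
      dist (pre p j • x0) (pre p (j + 1) • x0) ≤ C := by
    have hfin : (Set.range (fun c : Fin r × Bool => dist x0 (FreeGroup.mk [c] • x0))).Finite :=
      Set.finite_range _
    obtain ⟨C, hC⟩ := hfin.bddAbove
    refine ⟨max C 0, le_max_right _ _, fun p j => ?_⟩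
    have h1 : dist (pre p j • x0) (pre p (j + 1) • x0) =
        dist x0 (((pre p j)⁻¹ * pre p (j + 1)) • x0) := by
      rw [← hT.isom (pre p j) x0, smul_smul, mul_inv_cancel_left]
    rw [h1, pre_inv_mul]
    have h2 : seg p j 1 = [p.1 j] := by simp [seg]
    rw [h2]
    exact (hC ⟨p.1 j, rfl⟩).trans (le_max_left _ _)
  refine ⟨C * (2 * M * C + 3 * M), fun p k m hkm => ?_⟩
  have hM0 : 0 < M := by linarith
  have hD0 : 0 ≤ C * (2 * M * C + 3 * M) := by positivity
  rcases le_or_gt (gpT (pre p k • x0) x0 (pre p m • x0)) 0 with h0 | hη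
  · exact h0.trans hD0
  obtain ⟨w, hw⟩ : ∃ w, w = pre p k • x0 := ⟨_, rfl⟩
  obtain ⟨η, hηd⟩ : ∃ η, η = gpT w x0 (pre p m • x0) := ⟨_, rfl⟩
  rw [← hw, ← hηd] at hη ⊢
  obtain ⟨i, hik, hi1, hi2⟩ := near_branch hT.tree (fun j => pre p j • x0) C k
    (fun j _ => hC p j) (w := w) hη (by
      rw [hηd]
      simp only [pre_zero, one_smul]
      exact gpT_le_left _ _ _) hw.symm
  obtain ⟨j, hjk, hj1, hj2⟩ := near_branch hT.tree (fun j => pre p (m - j) • x0) C (m - k)
    (fun j hj => by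
      have := hC p (m - (j + 1))
      have e : m - (j + 1) + 1 = m - j := by omega
      rw [e, dist_comm] at this
      exact this) (w := w) hη (by
      rw [hηd, gpT_comm]
      exact gpT_le_left _ _ _) (by
      have e : m - (m - k) = k := by omega
      rw [e, ← hw])
  simp only [pre_zero, one_smul, Nat.sub_zero] at hi1 hi2 hj1 hj2
  -- the two points are close to each other
  have h1 : η ≤ gpT w (pre p i • x0) (pre p (m - j) • x0) := by
    have a1 := gpT_ultra hT.tree w (pre p i • x0) x0 (pre p m • x0)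
    rw [← hηd, min_eq_right hi2] at a1
    have a2 := gpT_ultra hT.tree w (pre p i • x0) (pre p m • x0) (pre p (m - j) • x0)
    rw [gpT_comm w (pre p m • x0)] at a2
    exact (le_min a1 hj2).trans a2
  have h2 : dist (pre p i • x0) (pre p (m - j) • x0) ≤ 2 * C := by
    unfold gpT at h1
    linarith
  have h3 : dist (pre p i • x0) (pre p (m - j) • x0) =
      dist x0 (((pre p i)⁻¹ * pre p (m - j)) • x0) := by
    rw [← hT.isom (pre p i) x0, smul_smul, mul_inv_cancel_left]
  have h4 := hM ((pre p i)⁻¹ * pre p (m - j))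
  rw [norm_fwd p (by omega), ← h3] at h4
  have h5 : ((k - i : ℕ) : ℝ) ≤ ((m - j - i : ℕ) : ℝ) := by
    have : k - i ≤ m - j - i := by omega
    exact_mod_cast this
  have h6 : dist (pre p i • x0) w ≤ C * ((k - i : ℕ) : ℝ) := by
    have key : ∀ l : ℕ, dist (pre p i • x0) (pre p (i + l) • x0) ≤ C * l := by
      intro l
      induction l with
      | zero => simp
      | succ l ih =>
        have a1 := dist_triangle (pre p i • x0) (pre p (i + l) • x0) (pre p (i + (l + 1)) • x0)
        have a2 := hC p (i + l)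
        rw [add_assoc] at a2
        push_cast
        linarith
    have := key (k - i)
    rw [Nat.add_sub_cancel' hik, ← hw] at this
    exact this
  have h7 : η ≤ dist w (pre p i • x0) := hi2.trans (gpT_le_left _ _ _)
  rw [dist_comm] at h7
  have h8 : ((m - j - i : ℕ) : ℝ) ≤ 2 * M * C + 3 * M := by nlinarith
  calc η ≤ C * ((k - i : ℕ) : ℝ) := h7.trans h6
    _ ≤ C * (2 * M * C + 3 * M) := mul_le_mul_of_nonneg_left (h5.trans h8) hC0

/-- Cylinders of length `k` have exponentially small visual diameter. -/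
theorem visual_bound (hT : IsTreeAction r T) (x0 : T) {a : ℝ} (ha : 1 < a)
    [MetricSpace (Bdy r)] (hvis : IsVisual (r := r) x0 a) :
    ∃ C ρ : ℝ, 0 ≤ C ∧ 0 < ρ ∧ ρ < 1 ∧
      ∀ (p q : Bdy r) (k : ℕ), (∀ j < k, p.1 j = q.1 j) → dist p q ≤ C * ρ ^ k := by
  obtain ⟨M, hM1, hM⟩ := milnor hT x0
  obtain ⟨D, hD⟩ := bounded_back hT x0
  have ha0 : 0 < a := by linarith
  refine ⟨a ^ (3 + D), a ^ (-(1 / M)), by positivity, by positivity, ?_, ?_⟩
  · apply Real.rpow_lt_one_of_one_lt_of_neg ha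
    have : 0 < 1 / M := by positivity
    linarith
  · intro p q k hpq
    by_cases hne : p = q
    · rw [hne, dist_self]; positivity
    obtain ⟨L, hL, hdist⟩ := hvis p q hne
    have hpk : pre p k = pre q k := by unfold pre; rw [pre_eq_of_agree hpq]
    have hone : ∀ (p : Bdy r) (m : ℕ), k ≤ m →
        (k : ℝ) / M - 3 - D ≤ gpT x0 (pre p k • x0) (pre p m • x0) := by
      intro p m hkm
      have h1 := hD p k m hkm
      have h2 := hM (pre p k)
      have h3 : (pre p k).norm = k := by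
        unfold FreeGroup.norm; rw [toWord_pre]; simp
      rw [h3] at h2
      have h4 : (k : ℝ) / M ≤ dist x0 (pre p k • x0) + 3 := by
        rw [div_le_iff₀ (by linarith)]; linarith
      unfold gpT at h1 ⊢
      have c1 := dist_comm (pre p k • x0) x0
      linarith
    have hev : ∀ᶠ l : ℕ × ℕ in atTop,
        (k : ℝ) / M - 3 - D ≤ gpT x0 (pre p l.1 • x0) (pre q l.2 • x0) := by
      filter_upwards [eventually_ge_atTop (k, k)] with l hl
      have h1 := hone p l.1 hl.1
      have h2 := hone q l.2 hl.2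
      rw [gpT_comm] at h1
      rw [← hpk] at h2
      have h3 := gpT_ultra hT.tree x0 (pre p l.1 • x0) (pre p k • x0) (pre q l.2 • x0)
      exact (le_min h1 h2).trans h3
    have hLk := ge_of_tendsto hL hev
    rw [hdist]
    have h5 : (a ^ (-(1 / M))) ^ k = a ^ (-((k : ℝ) / M)) := by
      rw [← Real.rpow_natCast, ← Real.rpow_mul ha0.le]
      congr 1; ring
    rw [h5, ← Real.rpow_add ha0]
    apply Real.rpow_le_rpow_of_exponent_le ha.le
    linarith

end action

end Pool.Agent.X185.CT
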