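import Pool.Agent.X185.CT.Noncon
import Pool.Agent.X185.CT.Dim
import Pool.Agent.X185.CT.Tree

set_option autoImplicit false

/-! Sets of far points have Hausdorff dimension zero. -/

namespace Pool.Agent.X185.CT

open Pool.Agent.H322R3.Hyp Filter Topology
open scoped ENNReal NNReal Pointwise

section
variable {Γ : Type*} [Group Γ] {S : Set Γ} (hS : Subgroup.closure S = ⊤)

include hS in
lemma ball_growth (hfin : S.Finite) :
    ∃ b : ℕ, 1 ≤ b ∧ ∀ n : ℕ, {g : Γ | wlen S g ≤ n}.ncard ≤ b ^ n := by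
  have hS' : (S ∪ S⁻¹ ∪ {1}).Finite := (hfin.union hfin.inv).union (Set.finite_singleton 1)
  refine ⟨(S ∪ S⁻¹ ∪ {1}).ncard, ?_, fun n => ?_⟩
  · rw [Nat.one_le_iff_ne_zero, ← Nat.pos_iff_ne_zero, Set.ncard_pos hS']
    exact ⟨1, by simp⟩
  · induction n with
    | zero =>
      rw [pow_zero]
      have : {g : Γ | wlen S g ≤ 0} ⊆ {1} := by
        intro g hg
        obtain ⟨l, hl1, hl2, hl3⟩ := wlen_spec hS g
        have : l.length = 0 := by
          rw [hl1]; exact Nat.le_zero.1 hg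
        rw [List.length_eq_zero_iff] at this
        subst this
        simpa using hl3.symm
      have h := Set.ncard_le_ncard this (Set.finite_singleton _)
      simpa using h
    | succ n ih =>
      have hsub : {g : Γ | wlen S g ≤ n + 1} ⊆ {g : Γ | wlen S g ≤ n} * (S ∪ S⁻¹ ∪ {1}) := by
        intro g hg
        have hg' : wlen S g ≤ n + 1 := hg
        rcases Nat.lt_or_ge (wlen S g) (n + 1) with hlt | hge
        · exact ⟨g, Nat.lt_succ_iff.1 hlt, 1, by simp, by simp⟩
        · obtain ⟨h, hh1, hh2⟩ := wlen_geod hS g n (by omega)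
          obtain ⟨l, hl1, hl2, hl3⟩ := wlen_spec hS (h⁻¹ * g)
          have hl : l.length = 1 := by omega
          obtain ⟨s, rfl⟩ := List.length_eq_one_iff.1 hl
          refine ⟨h, le_of_eq hh1, s, ?_, ?_⟩
          · rcases hl2 s (by simp) with h1 | h1
            · left; left; exact h1
            · left; right; exact h1
          · simp only [List.prod_singleton] at hl3
            simp only
            rw [hl3]; group
      have h1 := Set.ncard_le_ncard hsub ((ball_finite hS hfin n).mul hS')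
      have h2 : ({g : Γ | wlen S g ≤ n} * (S ∪ S⁻¹ ∪ {1})).ncard ≤
          {g : Γ | wlen S g ≤ n}.ncard * (S ∪ S⁻¹ ∪ {1}).ncard := Set.natCard_mul_le
      calc _ ≤ _ := h1
        _ ≤ _ := h2
        _ ≤ (S ∪ S⁻¹ ∪ {1}).ncard ^ n * (S ∪ S⁻¹ ∪ {1}).ncard := Nat.mul_le_mul_right _ ih
        _ = _ := (pow_succ _ _).symm

variable {r : ℕ} {δ : ℝ} (hδ0 : 0 ≤ δ)
  (hδ : ∀ x y z : Γ, min (gprod S 1 x y) (gprod S 1 y z) - δ ≤ gprod S 1 x z)
  {i : FreeGroup (Fin r) →* Γ}

include hS hδ0 hδ in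
theorem dimH_far (hfin : S.Finite) (hi : Function.Injective i)
    [MetricSpace (Bdy r)] {C ρ : ℝ} (hC : 0 ≤ C) (hρ0 : 0 < ρ) (hρ1 : ρ < 1)
    (hdist : ∀ (p q : Bdy r) (k : ℕ), (∀ j < k, p.1 j = q.1 j) → dist p q ≤ C * ρ ^ k)
    (s : Set (Bdy r)) (hs : ∀ p ∈ s, Far S (fun n => i (pre p n))) : dimH s = 0 := by
  obtain ⟨b, hb1, hb⟩ := ball_growth hS hfin
  -- jump bound
  obtain ⟨C1, hC1⟩ : ∃ C1 : ℝ, ∀ (p : Bdy r) (j : ℕ),
      wdist S (i (pre p j)) (i (pre p (j + 1))) ≤ C1 := by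
    have hfin : (Set.range (fun c : Fin r × Bool =>
        (wlen S (i (FreeGroup.mk [c])) : ℝ))).Finite := Set.finite_range _
    obtain ⟨C1, hC1⟩ := hfin.bddAbove
    refine ⟨C1, fun p j => ?_⟩
    unfold wdist
    rw [← map_inv, ← map_mul, pre_inv_mul]
    have h2 : seg p j 1 = [p.1 j] := by simp [seg]
    rw [h2]
    exact hC1 ⟨p.1 j, rfl⟩
  have key : ∀ t : ℝ≥0, 0 < t → dimH s ≤ t := by
    intro t ht
    have htR : (0 : ℝ) < t := by exact_mod_cast ht
    have hlogρ : Real.log ρ < 0 := Real.log_neg hρ0 hρ1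
    have hbR : (1 : ℝ) ≤ b := by exact_mod_cast hb1
    have hlogb : 0 ≤ Real.log b := Real.log_nonneg hbR
    obtain ⟨ε, hε⟩ : ∃ ε : ℝ, ε = t * (-Real.log ρ) / (Real.log b + 1) := ⟨_, rfl⟩
    have hεpos : 0 < ε := by
      rw [hε]
      apply div_pos
      · apply mul_pos htR; linarith
      · linarith
    have hεb : ε * Real.log b ≤ t * (-Real.log ρ) := by
      have h1 : ε * (Real.log b + 1) = t * (-Real.log ρ) := by
        rw [hε]; field_simp
      nlinarith
    obtain ⟨V, hV⟩ : ∃ V : ℕ → Set (FreeGroup (Fin r)),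
        ∀ m, V m = {w | (wlen S (i w) : ℝ) ≤ ε * m} := ⟨_, fun m => rfl⟩
    have hVsub : ∀ m, i '' (V m) ⊆ {g : Γ | wlen S g ≤ ⌊ε * m⌋₊} := by
      rintro m _ ⟨w, hw, rfl⟩
      rw [hV] at hw
      exact Nat.le_floor hw
    have hVfin : ∀ m, (V m).Finite := by
      intro m
      have h1 := (ball_finite hS hfin ⌊ε * m⌋₊).subset (hVsub m)
      exact Set.Finite.of_finite_image h1 hi.injOn
    have hVcard : ∀ m : ℕ, ((V m).ncard : ℝ) * (ρ ^ m) ^ (t : ℝ) ≤ 1 := by
      intro m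
      have h1 : (V m).ncard ≤ b ^ ⌊ε * m⌋₊ := by
        rw [← Set.ncard_image_of_injective _ hi]
        exact (Set.ncard_le_ncard (hVsub m) (ball_finite hS hfin _)).trans (hb _)
      have h2 : ((V m).ncard : ℝ) ≤ (b : ℝ) ^ ⌊ε * m⌋₊ := by exact_mod_cast h1
      have h3 : (b : ℝ) ^ ⌊ε * m⌋₊ ≤ Real.exp (ε * m * Real.log b) := by
        rw [← Real.rpow_natCast, Real.rpow_def_of_pos (by linarith)]
        apply Real.exp_le_exp.2
        rw [mul_comm]
        apply mul_le_mul_of_nonneg_right _ hlogb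
        exact Nat.floor_le (by positivity)
      have h4 : (ρ ^ m) ^ (t : ℝ) = Real.exp (m * Real.log ρ * t) := by
        rw [Real.rpow_def_of_pos (by positivity), Real.log_pow]
      calc ((V m).ncard : ℝ) * (ρ ^ m) ^ (t : ℝ)
          ≤ Real.exp (ε * m * Real.log b) * Real.exp (m * Real.log ρ * t) := by
            rw [h4]
            exact mul_le_mul_of_nonneg_right (h2.trans h3) (Real.exp_pos _).le
        _ = Real.exp (m * (ε * Real.log b - t * (-Real.log ρ))) := by
            rw [← Real.exp_add]; congr 1; ring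
        _ ≤ 1 := by
            rw [Real.exp_le_one_iff]
            apply mul_nonpos_of_nonneg_of_nonpos (Nat.cast_nonneg _)
            linarith
    have hcov : s ⊆ ⋃ x : ℕ × ℕ, ZS (V (x.1 + 1)) (x.1 + 1) x.2 := by
      intro p hp
      obtain ⟨m0, N, hN⟩ := short hS hδ0 hδ (hC1 p) (hs p hp) hεpos
      rw [Set.mem_iUnion]
      refine ⟨(m0, N), fun n hn => ?_⟩
      rw [hV]
      have h1 := hN (m0 + 1) (by omega) n hn
      unfold wdist at h1
      rw [← map_inv, ← map_mul] at h1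
      exact h1
    refine (dimH_mono hcov).trans ?_
    rw [dimH_iUnion]
    apply iSup_le
    rintro ⟨m, N⟩
    exact dimH_ZS hC hρ0 hρ1 hdist _ (hVfin _) (by omega) N t (hVcard _)
  apply le_antisymm _ zero_le
  apply ENNReal.le_of_forall_pos_le_add
  intro t ht _
  rw [zero_add]
  exact key t ht

end

end Pool.Agent.X185.CT
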