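import Pool.Agent.X185.CT.Defs

set_option autoImplicit false

/-! Prefixes and segments of infinite reduced words. -/

namespace Pool.Agent.X185.CT

open FreeGroup

variable {r : ℕ}

/-- The segment `p[n, n + j)` as a list. -/
def seg (p : Bdy r) (n j : ℕ) : List (Fin r × Bool) := (List.range j).map (fun l => p.1 (n + l))

lemma preL_eq_seg (p : Bdy r) (n : ℕ) : preL p n = seg p 0 n := by
  unfold preL seg
  congr 1
  funext l
  simp

@[simp] lemma length_seg (p : Bdy r) (n j : ℕ) : (seg p n j).length = j := by simp [seg]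

@[simp] lemma length_preL (p : Bdy r) (n : ℕ) : (preL p n).length = n := by simp [preL]

lemma seg_append (p : Bdy r) (n j l : ℕ) : seg p n j ++ seg p (n + j) l = seg p n (j + l) := by
  unfold seg
  rw [List.range_add, List.map_append, List.map_map]
  congr 1
  apply List.map_congr_left
  intro a _
  simp [add_assoc]

lemma preL_append (p : Bdy r) (n j : ℕ) : preL p n ++ seg p n j = preL p (n + j) := by
  rw [preL_eq_seg, preL_eq_seg]
  have := seg_append p 0 n j
  rwa [zero_add] at this

lemma seg_getElem (p : Bdy r) (n j l : ℕ) (h : l < (seg p n j).length) :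
    (seg p n j)[l] = p.1 (n + l) := by simp [seg]

lemma seg_reduced (p : Bdy r) (n j : ℕ) : FreeGroup.IsReduced (seg p n j) := by
  unfold FreeGroup.IsReduced
  rw [List.isChain_iff_getElem]
  intro l hl
  rw [seg_getElem, seg_getElem]
  exact p.2 (n + l)

lemma preL_reduced (p : Bdy r) (n : ℕ) : FreeGroup.IsReduced (preL p n) := by
  rw [preL_eq_seg]; exact seg_reduced p 0 n

lemma toWord_pre (p : Bdy r) (n : ℕ) : (pre p n).toWord = preL p n := by
  unfold pre
  rw [toWord_mk]
  exact (preL_reduced p n).reduce_eq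

lemma pre_zero (p : Bdy r) : pre p 0 = 1 := rfl

lemma pre_inv_mul (p : Bdy r) (n j : ℕ) : (pre p n)⁻¹ * pre p (n + j) = mk (seg p n j) := by
  rw [inv_mul_eq_iff_eq_mul]
  unfold pre
  rw [mul_mk, preL_append]

lemma pre_inv_mul_of_le (p : Bdy r) {n m : ℕ} (h : n ≤ m) :
    (pre p n)⁻¹ * pre p m = mk (seg p n (m - n)) := by
  rw [← pre_inv_mul, Nat.add_sub_cancel' h]

lemma toWord_fwd (p : Bdy r) {n m : ℕ} (h : n ≤ m) :
    ((pre p n)⁻¹ * pre p m).toWord = seg p n (m - n) := by
  rw [pre_inv_mul_of_le p h, toWord_mk]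
  exact (seg_reduced p _ _).reduce_eq

lemma pre_inv_mul_back (p : Bdy r) {i n : ℕ} (h : i ≤ n) :
    (pre p n)⁻¹ * pre p i = mk (invRev (seg p i (n - i))) := by
  have h1 := pre_inv_mul_of_le p h
  have h2 : (pre p n)⁻¹ * pre p i = ((pre p i)⁻¹ * pre p n)⁻¹ := by group
  rw [h2, h1, inv_mk]

lemma toWord_back (p : Bdy r) {i n : ℕ} (h : i ≤ n) :
    ((pre p n)⁻¹ * pre p i).toWord = invRev (seg p i (n - i)) := by
  have h2 : (pre p n)⁻¹ * pre p i = ((pre p i)⁻¹ * pre p n)⁻¹ := by group
  rw [h2, toWord_inv, toWord_fwd p h]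

lemma pre_injective (p : Bdy r) : Function.Injective (pre p) := by
  intro n m h
  have := congrArg (fun g => g.toWord.length) h
  simpa [toWord_pre] using this

/-- Words agreeing up to `k` have equal prefixes. -/
lemma pre_eq_of_agree {p q : Bdy r} {c : ℕ} (h : ∀ j < c, p.1 j = q.1 j) : preL p c = preL q c := by
  unfold preL
  apply List.map_congr_left
  intro a ha
  exact h a (List.mem_range.1 ha)

lemma agree_of_pre_eq {p q : Bdy r} {c : ℕ} (h : pre p c = pre q c) : ∀ j < c, p.1 j = q.1 j := by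
  intro j hj
  have h1 := congrArg FreeGroup.toWord h
  rw [toWord_pre, toWord_pre] at h1
  have h2 : (preL p c)[j]? = (preL q c)[j]? := by rw [h1]
  simpa [preL, hj] using h2

/-- First difference. -/
lemma exists_first_diff {p q : Bdy r} (h : p ≠ q) :
    ∃ c, (∀ j < c, p.1 j = q.1 j) ∧ p.1 c ≠ q.1 c := by
  classical
  have hex : ∃ c, p.1 c ≠ q.1 c := by
    by_contra hcon
    push Not at hcon
    exact h (Subtype.ext (funext hcon))
  refine ⟨Nat.find hex, fun j hj => ?_, Nat.find_spec hex⟩
  by_contra hne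
  exact Nat.find_min hex hj hne

lemma seg_cons (p : Bdy r) (n j : ℕ) : seg p n (j + 1) = p.1 n :: seg p (n + 1) j := by
  have h := seg_append p n 1 j
  rw [add_comm 1 j] at h
  rw [← h]
  simp [seg]

lemma toWord_cross {p q : Bdy r} {c n l : ℕ} (h : ∀ j < c, p.1 j = q.1 j) (hc : p.1 c ≠ q.1 c)
    (hn : c ≤ n) (hl : c ≤ l) :
    ((pre p n)⁻¹ * pre q l).toWord = invRev (seg p c (n - c)) ++ seg q c (l - c) := by
  have hpc : pre p c = pre q c := by
    unfold pre; rw [pre_eq_of_agree h]
  have e1 : (pre p n)⁻¹ * pre q l = ((pre p n)⁻¹ * pre p c) * ((pre q c)⁻¹ * pre q l) := by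
    rw [hpc]; group
  rw [e1, pre_inv_mul_back p hn, pre_inv_mul_of_le q hl, mul_mk, toWord_mk]
  apply FreeGroup.IsReduced.reduce_eq
  have hr1 : FreeGroup.IsReduced (invRev (seg p c (n - c))) := by
    have := isReduced_toWord (x := (pre p n)⁻¹ * pre p c)
    rwa [toWord_back p hn] at this
  have hr2 := seg_reduced q c (l - c)
  unfold FreeGroup.IsReduced at *
  rw [List.isChain_append]
  refine ⟨hr1, hr2, ?_⟩
  intro x hx y hy
  -- the junction letters
  rcases Nat.eq_zero_or_pos (n - c) with h0 | hpos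
  · rw [h0] at hx
    simp [seg, invRev] at hx
  rcases Nat.eq_zero_or_pos (l - c) with h0 | hpos'
  · rw [h0] at hy
    simp [seg] at hy
  obtain ⟨a, ha⟩ : ∃ a, n - c = a + 1 := ⟨n - c - 1, by omega⟩
  obtain ⟨b, hb⟩ : ∃ b, l - c = b + 1 := ⟨l - c - 1, by omega⟩
  rw [ha, seg_cons] at hx
  rw [hb, seg_cons] at hy
  simp only [invRev, List.map_cons, List.reverse_cons, List.getLast?_append, List.getLast?_singleton,
    List.head?_cons, Option.mem_def, Option.some.injEq, Option.some_or] at hx hy
  subst hx hy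
  simp only
  intro h1
  by_contra h2
  apply hc
  apply Prod.ext h1
  cases hpc2 : (p.1 c).2 <;> cases hqc2 : (q.1 c).2 <;> simp_all

lemma seg_prefix (p : Bdy r) (n : ℕ) {K j : ℕ} (h : K ≤ j) : seg p n K <+: seg p n j := by
  obtain ⟨l, rfl⟩ := Nat.exists_eq_add_of_le h
  rw [← seg_append]
  exact List.prefix_append _ _

lemma invRev_append' (L M : List (Fin r × Bool)) : invRev (L ++ M) = invRev M ++ invRev L := by
  simp [invRev]

/-- Backward prefix. -/
lemma back_prefix (p : Bdy r) {i n K : ℕ} (h : i + K ≤ n) :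
    invRev (seg p (n - K) K) <+: invRev (seg p i (n - i)) := by
  have e : seg p i (n - i) = seg p i (n - K - i) ++ seg p (n - K) K := by
    have := seg_append p i (n - K - i) K
    have e1 : i + (n - K - i) = n - K := by omega
    have e2 : n - K - i + K = n - i := by omega
    rw [e1, e2] at this
    exact this.symm
  rw [e, invRev_append']
  exact List.prefix_append _ _

end Pool.Agent.X185.CT
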