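import Pool.Agent.H322R3.HypGeom

set_option autoImplicit false

/-! Paths that stay far from their chords are short. -/

namespace Pool.Agent.X185.CT

open Pool.Agent.H322R3.Hyp Filter Topology

section
variable {Γ : Type*} [Group Γ] {S : Set Γ} (hS : Subgroup.closure S = ⊤)

include hS in
lemma wdist_comm' (x y : Γ) : wdist S x y = wdist S y x := by
  unfold wdist
  rw [← wlen_inv hS (x⁻¹ * y)]
  congr 2; group

include hS in
lemma wdist_tri (x y z : Γ) : wdist S x z ≤ wdist S x y + wdist S y z := by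
  unfold wdist
  have h := wlen_mul_le hS (x⁻¹ * y) (y⁻¹ * z)
  have e : x⁻¹ * y * (y⁻¹ * z) = x⁻¹ * z := by group
  rw [e] at h
  exact_mod_cast h

lemma wdist_self (x : Γ) : wdist S x x = 0 := by
  unfold wdist
  simp [wlen_one]

lemma wdist_nonneg (x y : Γ) : 0 ≤ wdist S x y := by
  unfold wdist
  exact Nat.cast_nonneg _

lemma wdist_mul (g x y : Γ) : wdist S (g * x) (g * y) = wdist S x y := by
  unfold wdist
  congr 2; group

lemma gprod_mul (g w x y : Γ) : gprod S (g * w) (g * x) (g * y) = gprod S w x y := by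
  unfold gprod
  rw [wdist_mul, wdist_mul, wdist_mul]

variable {δ : ℝ} (hδ0 : 0 ≤ δ)
  (hδ : ∀ x y z : Γ, min (gprod S 1 x y) (gprod S 1 y z) - δ ≤ gprod S 1 x z)

include hδ in
lemma hyp_base (w x y z : Γ) :
    min (gprod S w x y) (gprod S w y z) - δ ≤ gprod S w x z := by
  have := hδ (w⁻¹ * x) (w⁻¹ * y) (w⁻¹ * z)
  have e : ∀ a b : Γ, gprod S w a b = gprod S 1 (w⁻¹ * a) (w⁻¹ * b) := by
    intro a b
    have := gprod_mul (S := S) w⁻¹ w a b
    rw [inv_mul_cancel] at this
    exact this.symm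
  rw [e, e, e]
  exact this

include hS hδ in
lemma step_bound {o e a b : Γ} {R : ℝ} (ha : R ≤ gprod S a o e) (hb : R ≤ gprod S b o e)
    (hab : wdist S a b < 2 * R - δ) : gprod S o b e ≤ gprod S o a e + δ := by
  by_contra hlt
  push Not at hlt
  have h1 := hyp_base hδ o a b e
  have h2 : gprod S o a b ≤ gprod S o a e + δ := by
    rcases min_le_iff.1 (show min (gprod S o a b) (gprod S o b e) ≤ gprod S o a e + δ by linarith)
      with h | h
    · exact h
    · linarith
  unfold gprod at *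
  have c1 := wdist_comm' hS o a
  have c2 := wdist_comm' hS o b
  have c3 := wdist_comm' hS e a
  have c4 := wdist_comm' hS e b
  have c5 := wdist_comm' hS e o
  linarith

/-- The points far from both ends see the two ends with a large Gromov product. -/
def Far (S : Set Γ) (x : ℕ → Γ) : Prop :=
  ∀ R : ℝ, ∃ K N : ℕ, ∀ n i j : ℕ, N ≤ i → i + K ≤ n → n + K ≤ j →
    R ≤ gprod S (x n) (x i) (x j)

include hS in
lemma wdist_steps {x : ℕ → Γ} {C : ℝ} (hC : ∀ n, wdist S (x n) (x (n + 1)) ≤ C) (n j : ℕ) :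
    wdist S (x n) (x (n + j)) ≤ C * j := by
  induction j with
  | zero => simp [wdist_self]
  | succ j ih =>
    have h1 := wdist_tri hS (x n) (x (n + j)) (x (n + (j + 1)))
    have h2 := hC (n + j)
    rw [add_assoc] at h2
    push_cast
    linarith

include hS in
lemma gprod_lip (o e a b : Γ) : gprod S o b e ≤ gprod S o a e + wdist S a b := by
  unfold gprod
  have h1 := wdist_tri hS b a o
  have h2 := wdist_tri hS a b e
  have h3 := wdist_comm' hS a b
  linarith

include hS hδ0 hδ in
theorem short {x : ℕ → Γ} {C : ℝ} (hC : ∀ n, wdist S (x n) (x (n + 1)) ≤ C)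
    (hfar : Far S x) {ε : ℝ} (hε : 0 < ε) :
    ∃ m0 N : ℕ, ∀ m, m0 ≤ m → ∀ n, N ≤ n → wdist S (x n) (x (n + m)) ≤ ε * m := by
  have hC0 : 0 ≤ C := (wdist_nonneg _ _).trans (hC 0)
  obtain ⟨l0, hl0⟩ := exists_nat_ge (2 * δ / ε)
  obtain ⟨l, hl, hl1⟩ : ∃ l : ℕ, 1 ≤ l ∧ 2 * δ / ε ≤ l :=
    ⟨l0 + 1, by omega, by push_cast; linarith⟩
  have hlε : 2 * δ ≤ ε * l := by
    rw [div_le_iff₀ hε] at hl1; linarith
  obtain ⟨K, N, hK⟩ := hfar ((C * l + δ) / 2 + 1)
  obtain ⟨m1, hm1⟩ := exists_nat_ge (2 * (C * (2 * K + l)) / ε)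
  refine ⟨max m1 (2 * K), N, fun m hm n hn => ?_⟩
  have hmm1 : m1 ≤ m := (le_max_left _ _).trans hm
  have hmK : 2 * K ≤ m := (le_max_right _ _).trans hm
  obtain ⟨o, ho⟩ : ∃ o, o = x n := ⟨_, rfl⟩
  obtain ⟨e, he⟩ : ∃ e, e = x (n + m) := ⟨_, rfl⟩
  have heta : ∀ t, K ≤ t → t + K ≤ m → (C * l + δ) / 2 + 1 ≤ gprod S (x (n + t)) o e := by
    intro t h1 h2
    rw [ho, he]
    exact hK (n + t) n (n + m) hn (by omega) (by omega)
  have hchain : ∀ j : ℕ, K + j * l + K ≤ m →
      gprod S o (x (n + (K + j * l))) e ≤ gprod S o (x (n + K)) e + j * δ := by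
    intro j
    induction j with
    | zero => intro _; simp
    | succ j ih =>
      intro hj
      have hj' : K + j * l + K ≤ m := by
        have : j * l ≤ (j + 1) * l := Nat.mul_le_mul_right l (by omega)
        omega
      have h1 := ih hj'
      have e1 : n + (K + (j + 1) * l) = n + (K + j * l) + l := by ring
      have h2 := heta (K + j * l) (by omega) hj'
      have h3 := heta (K + (j + 1) * l) (by omega) hj
      rw [e1] at h3 ⊢
      have h4 := wdist_steps hS hC (n + (K + j * l)) l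
      have h5 := step_bound hS hδ h2 h3 (by linarith)
      push_cast
      linarith
  obtain ⟨J, hJ⟩ : ∃ J, J = (m - 2 * K) / l := ⟨_, rfl⟩
  have hJ1 : J * l ≤ m - 2 * K := by rw [hJ]; exact Nat.div_mul_le_self _ _
  have hJ2 : m - 2 * K < J * l + l := by
    rw [hJ]
    have := Nat.lt_div_mul_add (a := m - 2 * K) (b := l) (by omega)
    exact this
  have h1 := hchain J (by omega)
  -- the two ends
  have h2 : gprod S o (x (n + K)) e ≤ C * K := by
    have a1 := gprod_lip hS o e o (x (n + K))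
    have a2 : gprod S o o e = 0 := by
      unfold gprod
      rw [wdist_self, wdist_comm' hS e o]; ring
    have a3 := wdist_steps hS hC n K
    rw [← ho] at a3
    linarith
  have h3 : wdist S o e ≤ gprod S o (x (n + (K + J * l))) e + C * (K + l) := by
    have a1 := gprod_lip hS o e (x (n + (K + J * l))) e
    have a2 : gprod S o e e = wdist S o e := by
      unfold gprod
      rw [wdist_self, wdist_comm' hS e o]; ring
    have a3 := wdist_steps hS hC (n + (K + J * l)) (m - (K + J * l))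
    have e2 : n + (K + J * l) + (m - (K + J * l)) = n + m := by omega
    rw [e2, ← he] at a3
    have a4 : ((m - (K + J * l) : ℕ) : ℝ) ≤ K + l := by
      have : m - (K + J * l) ≤ K + l := by omega
      exact_mod_cast this
    have a5 : C * ((m - (K + J * l) : ℕ) : ℝ) ≤ C * (K + l) := mul_le_mul_of_nonneg_left a4 hC0
    linarith
  have h4 : (J : ℝ) * δ ≤ ε * m / 2 := by
    have b1 : J * l ≤ m := by omega
    have b2 : (J : ℝ) * l ≤ m := by exact_mod_cast b1
    have b3 : (0 : ℝ) ≤ J := Nat.cast_nonneg _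
    nlinarith
  have h5 : C * (2 * K + l) ≤ ε * m / 2 := by
    have b1 : 2 * (C * (2 * K + l)) / ε ≤ m := hm1.trans (by exact_mod_cast hmm1)
    rw [div_le_iff₀ hε] at b1
    linarith
  rw [← ho, ← he]
  nlinarith

end

end Pool.Agent.X185.CT
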