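import Pool.Agent.X185.CT.UCT
import Pool.Agent.X185.CT.Short

set_option autoImplicit false

/-! Endpoints of leaves and non-conical points are far. -/

namespace Pool.Agent.X185.CT

open Pool.Agent.H322R3.Hyp Filter Topology

variable {r : ℕ}

lemma tendsTo_pre (p : Bdy r) : TendsTo (pre p) p := by
  intro K
  refine ⟨K, fun k hk => ?_⟩
  rw [toWord_pre, preL_eq_seg, preL_eq_seg]
  exact seg_prefix p 0 hk

section
variable {Γ : Type*} [Group Γ] {S : Set Γ} (hS : Subgroup.closure S = ⊤)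
  {δ : ℝ} (hδ0 : 0 ≤ δ)
  (hδ : ∀ x y z : Γ, min (gprod S 1 x y) (gprod S 1 y z) - δ ≤ gprod S 1 x z)
  {i : FreeGroup (Fin r) →* Γ} {f : Bdy r → Boundary S} (hf : IsCT S i f)

lemma gprod_at (w x y : Γ) : gprod S w x y = gprod S 1 (w⁻¹ * x) (w⁻¹ * y) := by
  have := gprod_mul (S := S) w⁻¹ w x y
  rw [inv_mul_cancel] at this
  exact this.symm

include hS in
lemma gprod_symm' (w x y : Γ) : gprod S w x y = gprod S w y x := by
  rw [gprod_at w x y, gprod_at w y x, gprod_symm hS]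

include hδ0 hδ in
lemma hyp4_base {w x y z u : Γ} {M : ℝ} (h1 : M ≤ gprod S w x y) (h2 : M ≤ gprod S w y z)
    (h3 : M ≤ gprod S w z u) : M - 2 * δ ≤ gprod S w x u := by
  rw [gprod_at] at *
  exact hyp4 hδ0 hδ h1 h2 h3

/-- forward estimate -/
lemma fwd_est {R : ℝ} {K : ℕ} (hK : ∀ (u v : FreeGroup (Fin r)) (L : List (Fin r × Bool)),
    K ≤ L.length → L <+: u.toWord → L <+: v.toWord → R ≤ gprod S 1 (i u) (i v))
    (p : Bdy r) {n j l : ℕ} (hj : n + K ≤ j) (hl : n + K ≤ l) :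
    R ≤ gprod S (i (pre p n)) (i (pre p j)) (i (pre p l)) := by
  rw [gprod_at, ← map_inv, ← map_mul, ← map_mul]
  apply hK _ _ (seg p n K)
  · simp
  · rw [toWord_fwd p (by omega)]; exact seg_prefix p n (by omega)
  · rw [toWord_fwd p (by omega)]; exact seg_prefix p n (by omega)

/-- backward estimate -/
lemma back_est {R : ℝ} {K : ℕ} (hK : ∀ (u v : FreeGroup (Fin r)) (L : List (Fin r × Bool)),
    K ≤ L.length → L <+: u.toWord → L <+: v.toWord → R ≤ gprod S 1 (i u) (i v))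
    (p : Bdy r) {n j l : ℕ} (hj : j + K ≤ n) (hl : l + K ≤ n) :
    R ≤ gprod S (i (pre p n)) (i (pre p j)) (i (pre p l)) := by
  rw [gprod_at, ← map_inv, ← map_mul, ← map_mul]
  apply hK _ _ (FreeGroup.invRev (seg p (n - K) K))
  · simp
  · rw [toWord_back p (by omega)]; exact back_prefix p hj
  · rw [toWord_back p (by omega)]; exact back_prefix p hl

/-- crossing estimate -/
lemma cross_est {R : ℝ} {K : ℕ} (hK : ∀ (u v : FreeGroup (Fin r)) (L : List (Fin r × Bool)),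
    K ≤ L.length → L <+: u.toWord → L <+: v.toWord → R ≤ gprod S 1 (i u) (i v))
    {p q : Bdy r} {c : ℕ} (h : ∀ j < c, p.1 j = q.1 j) (hc : p.1 c ≠ q.1 c) {n j l : ℕ}
    (hcj : c ≤ j) (hj : j + K ≤ n) (hl : c ≤ l) :
    R ≤ gprod S (i (pre p n)) (i (pre p j)) (i (pre q l)) := by
  rw [gprod_at, ← map_inv, ← map_mul, ← map_mul]
  apply hK _ _ (FreeGroup.invRev (seg p (n - K) K))
  · simp
  · rw [toWord_back p (by omega)]; exact back_prefix p hj
  · rw [toWord_cross h hc (by omega) hl]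
    exact (back_prefix p (by omega)).trans (List.prefix_append _ _)

include hS hδ0 hδ hf in
/-- Endpoints of leaves are far. -/
theorem far_endpoint {p q : Bdy r} (hpq : p ≠ q) (hfp : f p = f q) :
    Far S (fun n => i (pre p n)) := by
  obtain ⟨c, hc1, hc2⟩ := exists_first_diff hpq
  intro R
  obtain ⟨K, hK⟩ := uct hS hδ0 hδ hf (R + 2 * δ)
  refine ⟨K, c, fun n i0 j h1 h2 h3 => ?_⟩
  obtain ⟨a1, a1'⟩ := hf p _ (tendsTo_pre p)
  obtain ⟨a2, a2'⟩ := hf q _ (tendsTo_pre q)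
  have h4 := (bmk_eq_iff hS hδ0 hδ _ _).1 (a1'.trans (hfp.trans a2'.symm))
  obtain ⟨M, hM⟩ := (bequiv_def _ _).1 h4 (R + 2 * δ + wlen S (i (pre p n))⁻¹)
  obtain ⟨k, hk⟩ : ∃ k, k = max M (max (n + K) c) := ⟨_, rfl⟩
  have hk1 : M ≤ k := hk ▸ le_max_left _ _
  have hk2 : n + K ≤ k := hk ▸ (le_max_left _ _).trans (le_max_right _ _)
  have hk3 : c ≤ k := hk ▸ (le_max_right _ _).trans (le_max_right _ _)
  have b1 := hM k k hk1 hk1
  have b2 : R + 2 * δ ≤ gprod S (i (pre p n)) (i (pre q k)) (i (pre p k)) := by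
    rw [gprod_symm' hS, gprod_at]
    have := gprod_translate hS (i (pre p n))⁻¹ (i (pre p k)) (i (pre q k))
    linarith
  have b3 := cross_est hK hc1 hc2 (n := n) (j := i0) (l := k) h1 h2 hk3
  have b4 := fwd_est hK p (n := n) (j := k) (l := j) hk2 h3
  have := hyp4_base hδ0 hδ b3 b2 b4
  linarith

include hS hδ0 hδ hf in
lemma not_far {p : Bdy r} (h : ¬ Far S (fun n => i (pre p n))) :
    ∃ (R : ℝ) (K : ℕ), 0 ≤ R ∧ ∀ N : ℕ, ∃ n, N ≤ n ∧ ∀ j, n + K ≤ j →
      gprod S (i (pre p n)) 1 (i (pre p j)) < R := by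
  unfold Far at h
  push Not at h
  obtain ⟨R, hR⟩ := h
  obtain ⟨K, hK⟩ := uct hS hδ0 hδ hf (R + 2 * δ)
  refine ⟨max (R + 2 * δ) 0, K, le_max_right _ _, fun N => ?_⟩
  obtain ⟨n, i0, j0, h1, h2, h3, h4⟩ := hR K N
  refine ⟨n, by omega, fun j hj => ?_⟩
  by_contra hge
  push Not at hge
  have b0 : R + 2 * δ ≤ gprod S (i (pre p n)) (i (pre p 0)) (i (pre p j)) := by
    rw [pre_zero, map_one]
    exact (le_max_left _ _).trans hge
  have b1 := back_est hK p (n := n) (j := i0) (l := 0) h2 (by omega)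
  have b2 := fwd_est hK p (n := n) (j := j) (l := j0) hj h3
  have := hyp4_base hδ0 hδ b1 b0 b2
  linarith

end

end Pool.Agent.X185.CT
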