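import Pool.Agent.X185.CT.Ray

set_option autoImplicit false

/-! Points whose image is not conical are far. -/

namespace Pool.Agent.X185.CT

open Pool.Agent.H322R3.Hyp Filter Topology

variable {r : ℕ}

section
variable {Γ : Type*} [Group Γ] {S : Set Γ} (hS : Subgroup.closure S = ⊤)
  {δ : ℝ} (hδ0 : 0 ≤ δ)
  (hδ : ∀ x y z : Γ, min (gprod S 1 x y) (gprod S 1 y z) - δ ≤ gprod S 1 x z)
  {i : FreeGroup (Fin r) →* Γ} {f : Bdy r → Boundary S} (hf : IsCT S i f)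

include hS hδ0 hδ hf in
theorem far_of_geo (hfin : S.Finite) {p : Bdy r} (hp : ¬ ConicalGeo S i (f p)) :
    Far S (fun n => i (pre p n)) := by
  by_contra hnf
  apply hp
  obtain ⟨R, K, hR0, hR⟩ := not_far hS hδ0 hδ hf hnf
  obtain ⟨hx, hx'⟩ := hf p _ (tendsTo_pre p)
  obtain ⟨γ, hγ, hγ0, hγc, hγ'⟩ := exists_ray hS hδ0 hδ hfin ⟨_, hx⟩
  refine ⟨γ, hγ, ⟨hγc, hγ'.trans hx'⟩, 2 * R + 4 * δ, ?_⟩
  have hlen : ∀ k, wlen S (γ k) = k := by
    intro k
    have := hγ 0 k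
    rw [hγ0] at this
    unfold wdist at this
    simp only [inv_one, one_mul, Nat.cast_zero, zero_sub, abs_neg, Nat.abs_cast] at this
    exact_mod_cast this
  have hga : ∀ j k, j ≤ k → gprod S 1 (γ j) (γ k) = j := by
    intro j k hjk
    rw [gprod_one hS, hlen, hlen]
    have := hγ j k
    unfold wdist at this
    rw [this, abs_sub_comm, abs_of_nonneg]
    · ring
    · have : (j : ℝ) ≤ k := by exact_mod_cast hjk
      linarith
  have hinf : {n : ℕ | ∃ k, wdist S (γ k) (i (pre p n)) ≤ 2 * R + 4 * δ}.Infinite := by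
    apply Set.infinite_of_forall_exists_gt
    intro N
    obtain ⟨n, hn, hnj⟩ := hR (N + 1)
    refine ⟨n, ⟨wlen S (i (pre p n)), ?_⟩, by omega⟩
    obtain ⟨k, hk⟩ : ∃ k, k = wlen S (i (pre p n)) := ⟨_, rfl⟩
    rw [← hk]
    have heq := (bmk_eq_iff hS hδ0 hδ _ _).1 hγ'
    obtain ⟨M, hM⟩ := (bequiv_def _ _).1 heq k
    obtain ⟨j, hj⟩ : ∃ j, j = max M (max (n + K) k) := ⟨_, rfl⟩
    have hj1 : M ≤ j := hj ▸ le_max_left _ _
    have hj2 : n + K ≤ j := hj ▸ (le_max_left _ _).trans (le_max_right _ _)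
    have hj3 : k ≤ j := hj ▸ (le_max_right _ _).trans (le_max_right _ _)
    have b1 := hnj j hj2
    have b2 : (k : ℝ) - R ≤ gprod S 1 (i (pre p n)) (i (pre p j)) := by
      have e : gprod S (i (pre p n)) 1 (i (pre p j)) + gprod S 1 (i (pre p n)) (i (pre p j)) = k := by
        rw [gprod_one hS, hk]
        unfold gprod wdist
        have c1 : wlen S ((i (pre p j))⁻¹ * i (pre p n)) =
            wlen S ((i (pre p n))⁻¹ * i (pre p j)) := by
          rw [← wlen_inv hS ((i (pre p j))⁻¹ * i (pre p n))]; congr 1; group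
        rw [c1]
        simp only [inv_one, one_mul]
        ring
      linarith
    have b3 : (k : ℝ) - R ≤ gprod S 1 (i (pre p j)) (γ j) := by
      have := hM j j hj1 hj1
      change (k : ℝ) ≤ gprod S 1 (γ j) (i (pre p j)) at this
      rw [gprod_symm hS] at this
      linarith
    have b4 : (k : ℝ) - R ≤ gprod S 1 (γ j) (γ k) := by
      rw [gprod_symm hS, hga k j hj3]; linarith
    have b5 := hyp4 hδ0 hδ b2 b3 b4
    rw [gprod_one hS, hlen, ← hk] at b5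
    rw [wdist_comm' hS]
    unfold wdist
    linarith
  have := hinf.image (pre_injective p).injOn
  refine this.mono ?_
  rintro _ ⟨n, hn, rfl⟩
  exact hn

include hS hδ0 hδ hf in
theorem far_of_dyn (hfin : S.Finite) {p : Bdy r} (hp : ¬ ConicalDyn hS i (f p)) :
    Far S (fun n => i (pre p n)) := by
  by_contra hnf
  apply hp
  obtain ⟨R, K, hR0, hR⟩ := not_far hS hδ0 hδ hf hnf
  obtain ⟨hx, hx'⟩ := hf p _ (tendsTo_pre p)
  have hxd := (tendsto_pair_iff (fun a b => gprod S 1 (i (pre p a)) (i (pre p b)))).1 hx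
  choose n hn hnj using hR
  -- the translated points
  have hj : ∀ N : ℕ, ∃ j, n N + K ≤ j ∧ ∀ l l', j ≤ l → j ≤ l' →
      (N : ℝ) ≤ gprod S 1 ((i (pre p (n N)))⁻¹ * i (pre p l)) ((i (pre p (n N)))⁻¹ * i (pre p l')) := by
    intro N
    obtain ⟨M, hM⟩ := hxd (N + wlen S (i (pre p (n N)))⁻¹)
    refine ⟨max (n N + K) M, le_max_left _ _, fun l l' hl hl' => ?_⟩
    have h1 := hM l l' ((le_max_right _ _).trans hl) ((le_max_right _ _).trans hl')
    have h2 := gprod_translate hS (i (pre p (n N)))⁻¹ (i (pre p l)) (i (pre p l'))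
    linarith
  choose j hj1 hj2 using hj
  obtain ⟨g, hg⟩ : ∃ g : ℕ → Γ, g = fun N => (i (pre p (n N)))⁻¹ := ⟨_, rfl⟩
  obtain ⟨y, hy⟩ : ∃ y : ℕ → Γ, y = fun N => g N * i (pre p (j N)) := ⟨_, rfl⟩
  have hgN : ∀ N, g N = (i (pre p (n N)))⁻¹ := fun N => by rw [hg]
  have hyN : ∀ N, y N = g N * i (pre p (j N)) := fun N => by rw [hy]
  have hgy : ∀ N, gprod S 1 (g N) (y N) < R := by
    intro N
    have := hnj N (j N) (hj1 N)
    rw [gprod_at, mul_one] at this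
    rw [hyN, hgN]; exact this
  have hglen : ∀ M : ℕ, ∃ N, ∀ k, N ≤ k → M ≤ wlen S (g k) := by
    intro M
    obtain ⟨N, hN⟩ := hxd M
    refine ⟨N, fun k hk => ?_⟩
    have h1 := hN (n k) (n k) (hk.trans (hn k)) (hk.trans (hn k))
    rw [gprod_self hS] at h1
    rw [hgN, wlen_inv hS]
    exact_mod_cast h1
  have hylen : ∀ M : ℕ, ∃ N, ∀ k, N ≤ k → M ≤ wlen S (y k) := by
    intro M
    refine ⟨M, fun k hk => ?_⟩
    have h1 := hj2 k (j k) (j k) le_rfl le_rfl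
    rw [gprod_self hS] at h1
    rw [hyN, hgN]
    have : (M : ℝ) ≤ k := by exact_mod_cast hk
    exact_mod_cast this.trans h1
  obtain ⟨ψ1, hψ1, hc1⟩ := extract1 hS hδ hfin g hglen
  obtain ⟨ψ2, hψ2, hc2⟩ := extract1 hS hδ hfin (fun k => y (ψ1 k)) (fun M => by
    obtain ⟨N, hN⟩ := hylen M
    exact ⟨N, fun k hk => hN _ (hk.trans (hψ1.id_le k))⟩)
  have hcg : ConvInf S (fun k => g (ψ1 (ψ2 k))) := ConvInf.sub hc1 hψ2
  have hψ : StrictMono (fun k => ψ1 (ψ2 k)) := hψ1.comp hψ2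
  obtain ⟨ψ, hψdef⟩ : ∃ ψ : ℕ → ℕ, ψ = fun k => ψ1 (ψ2 k) := ⟨_, rfl⟩
  have hψk : ∀ k, ψ1 (ψ2 k) = ψ k := fun k => by rw [hψdef]
  have hψm : StrictMono ψ := by rw [hψdef]; exact hψ
  simp only [hψk] at hcg hc2
  have hcg' := (tendsto_pair_iff (fun a b => gprod S 1 (g (ψ a)) (g (ψ b)))).1 hcg
  have hcy' := (tendsto_pair_iff (fun a b => gprod S 1 (y (ψ a)) (y (ψ b)))).1 hc2
  refine ⟨fun k => (pre p (n (ψ k)))⁻¹, bmk S ⟨_, hc2⟩, bmk S ⟨_, hcg⟩, ?_, ?_, ?_⟩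
  · intro heq
    have h1 := (bmk_eq_iff hS hδ0 hδ _ _).1 heq
    obtain ⟨N, hN⟩ := (bequiv_def _ _).1 h1 R
    have h2 := hN N N le_rfl le_rfl
    change R ≤ gprod S 1 (y (ψ N)) (g (ψ N)) at h2
    rw [gprod_symm hS] at h2
    exact absurd (hgy (ψ N)) (not_lt.2 h2)
  · intro U hU
    obtain ⟨V, hVU, hVo, hVm⟩ := mem_nhds_iff.1 hU
    obtain ⟨ρ, hρ⟩ := hVo _ hVm
    obtain ⟨I0, hI0⟩ := hcy' (ρ + δ)
    obtain ⟨k1, hk1⟩ := exists_nat_ge (ρ + δ)
    rw [Filter.mem_map, mem_atTop_sets]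
    refine ⟨max I0 k1, fun k hk => hVU (hρ ?_)⟩
    have hkI : I0 ≤ k := (le_max_left _ _).trans hk
    have hkk : k1 ≤ k := (le_max_right _ _).trans hk
    refine ⟨⟨_, hc2⟩, translate hS (i ((pre p (n (ψ k)))⁻¹)) ⟨_, hx⟩, rfl, ?_,
      max I0 (j (ψ k)), fun a b ha hb => ?_⟩
    · rw [← hx']; rfl
    · change ρ ≤ gprod S 1 (y (ψ a)) (i ((pre p (n (ψ k)))⁻¹) * i (pre p b))
      rw [map_inv, ← hgN]
      have c1 := hI0 a k ((le_max_left _ _).trans ha) hkI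
      have c2 := hj2 (ψ k) (j (ψ k)) b le_rfl ((le_max_right _ _).trans hb)
      rw [← hgN, ← hyN] at c2
      have c3 : ρ + δ ≤ (ψ k : ℝ) := by
        have : (k1 : ℝ) ≤ ψ k := by exact_mod_cast hkk.trans (hψm.id_le k)
        linarith
      have := hyp3 hδ c1 (c3.trans c2)
      linarith
  · intro η hη U hU
    obtain ⟨V, hVU, hVo, hVm⟩ := mem_nhds_iff.1 hU
    obtain ⟨ρ, hρ⟩ := hVo _ hVm
    obtain ⟨u, hu⟩ := Quot.exists_rep η
    have hne : ¬ BEquiv S u ⟨_, hx⟩ := by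
      intro h
      apply hη
      rw [← hu, ← hx']
      exact (bmk_eq_iff hS hδ0 hδ _ _).2 h
    obtain ⟨M, N0, hMN⟩ := bounded_of_ne hS hδ0 hδ hne
    obtain ⟨I0, hI0⟩ := hcg' (ρ + δ)
    obtain ⟨M2, hM2⟩ := exists_nat_ge (ρ + δ + M)
    obtain ⟨I1, hI1⟩ := hglen M2
    rw [Filter.mem_map, mem_atTop_sets]
    refine ⟨max I0 (max I1 N0), fun k hk => hVU (hρ ?_)⟩
    have hkI : I0 ≤ k := (le_max_left _ _).trans hk
    have hkI1 : I1 ≤ k := (le_max_left _ _).trans ((le_max_right _ _).trans hk)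
    have hkN : N0 ≤ k := (le_max_right _ _).trans ((le_max_right _ _).trans hk)
    refine ⟨⟨_, hcg⟩, translate hS (i ((pre p (n (ψ k)))⁻¹)) u, rfl, ?_,
      max I0 N0, fun a b ha hb => ?_⟩
    · rw [← hu]; rfl
    · change ρ ≤ gprod S 1 (g (ψ a)) (i ((pre p (n (ψ k)))⁻¹) * u.1 b)
      rw [map_inv, ← hgN]
      have c1 := hI0 a k ((le_max_left _ _).trans ha) hkI
      have c2 : ρ + δ ≤ gprod S 1 (g (ψ k)) (g (ψ k) * u.1 b) := by
        have d1 := hMN b (n (ψ k)) ((le_max_right _ _).trans hb)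
          (hkN.trans ((hψm.id_le k).trans (hn _)))
        change gprod S 1 (u.1 b) (i (pre p (n (ψ k)))) ≤ M at d1
        have d2 := hI1 (ψ k) (hkI1.trans (hψm.id_le k))
        have d3 : (M2 : ℝ) ≤ wlen S (g (ψ k)) := by exact_mod_cast d2
        have d4 : gprod S 1 (g (ψ k)) (g (ψ k) * u.1 b) =
            wlen S (g (ψ k)) - gprod S 1 (u.1 b) (i (pre p (n (ψ k)))) := by
          rw [gprod_one hS, gprod_one hS, hgN, wlen_inv hS]
          have e1 : (i (pre p (n (ψ k))))⁻¹⁻¹ * ((i (pre p (n (ψ k))))⁻¹ * u.1 b) = u.1 b := by group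
          have e2 : wlen S ((i (pre p (n (ψ k))))⁻¹ * u.1 b) =
              wlen S ((u.1 b)⁻¹ * i (pre p (n (ψ k)))) := by
            rw [← wlen_inv hS ((i (pre p (n (ψ k))))⁻¹ * u.1 b)]; congr 1; group
          rw [e1, e2]; ring
        rw [d4]
        linarith
      have := hyp3 hδ c1 c2
      linarith

end

end Pool.Agent.X185.CT
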