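import Pool.Agent.X185.CT.Leaf

set_option autoImplicit false

/-! Geodesic rays, extraction of convergent subsequences and conical points. -/

namespace Pool.Agent.X185.CT

open Pool.Agent.H322R3.Hyp Filter Topology

section
variable {Γ : Type*} [Group Γ] {S : Set Γ} (hS : Subgroup.closure S = ⊤)
  {δ : ℝ} (hδ0 : 0 ≤ δ)
  (hδ : ∀ x y z : Γ, min (gprod S 1 x y) (gprod S 1 y z) - δ ≤ gprod S 1 x z)

include hS in
/-- Balls are finite. -/
lemma ball_finite (hfin : S.Finite) (n : ℕ) : {g : Γ | wlen S g ≤ n}.Finite := by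
  induction n with
  | zero =>
    apply Set.Finite.subset (Set.finite_singleton (1 : Γ))
    intro g hg
    obtain ⟨l, hl1, hl2, hl3⟩ := wlen_spec hS g
    have : l.length = 0 := by
      rw [hl1]; exact Nat.le_zero.1 hg
    rw [List.length_eq_zero_iff] at this
    subst this
    simpa using hl3.symm
  | succ n ih =>
    have hS' : (S ∪ S⁻¹ ∪ {1}).Finite := (hfin.union hfin.inv).union (Set.finite_singleton 1)
    apply Set.Finite.subset (ih.mul hS')
    intro g hg
    have hg' : wlen S g ≤ n + 1 := hg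
    rcases Nat.lt_or_ge (wlen S g) (n + 1) with hlt | hge
    · exact ⟨g, Nat.lt_succ_iff.1 hlt, 1, by simp, by simp⟩
    · obtain ⟨h, hh1, hh2⟩ := wlen_geod hS g n (by omega)
      obtain ⟨l, hl1, hl2, hl3⟩ := wlen_spec hS (h⁻¹ * g)
      have hl : l.length = 1 := by omega
      obtain ⟨s, rfl⟩ := List.length_eq_one_iff.1 hl
      refine ⟨h, le_of_eq hh1, s, ?_, ?_⟩
      · rcases hl2 s (by simp) with h1 | h1
        · left; left; exact h1
        · left; right; exact h1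
      · simp only [List.prod_singleton] at hl3
        simp only
        rw [hl3]; group

/-- A compactness principle for choices in balls. -/
lemma diag {Γ : Type*} [Group Γ] {S : Set Γ} (hball : ∀ n : ℕ, {g : Γ | wlen S g ≤ n}.Finite)
    (p : ℕ → ℕ → Γ) (hp : ∀ k n, wlen S (p k n) ≤ n) :
    ∃ (a : ℕ → Γ) (ψ : ℕ → ℕ), StrictMono ψ ∧ ∀ n, ∃ N, ∀ k, N ≤ k → p (ψ k) n = a n := by
  let _ : ∀ n : ℕ, TopologicalSpace {g : Γ | wlen S g ≤ n} := fun n => ⊥
  have _ : ∀ n : ℕ, DiscreteTopology {g : Γ | wlen S g ≤ n} := fun n => ⟨rfl⟩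
  have _ : ∀ n : ℕ, Finite {g : Γ | wlen S g ≤ n} := fun n => hball n
  obtain ⟨a, ψ, hψ, hlim⟩ := CompactSpace.tendsto_subseq
    (fun k => (fun n => ⟨p k n, hp k n⟩ : ∀ n : ℕ, {g : Γ | wlen S g ≤ n}))
  refine ⟨fun n => (a n).1, ψ, hψ, fun n => ?_⟩
  have hlimn := (tendsto_pi_nhds.1 hlim) n
  have hev : ∀ᶠ k in atTop, (⟨p (ψ k) n, hp (ψ k) n⟩ : {g : Γ | wlen S g ≤ n}) = a n := by
    rw [nhds_discrete] at hlimn
    exact tendsto_pure.1 hlimn
  obtain ⟨N, hN⟩ := eventually_atTop.1 hev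
  exact ⟨N, fun k hk => congrArg Subtype.val (hN k hk)⟩

include hS hδ in
/-- Extraction of a sequence converging at infinity. -/
lemma extract1 (hfin : S.Finite) (h : ℕ → Γ) (hlen : ∀ M : ℕ, ∃ N, ∀ k, N ≤ k → M ≤ wlen S (h k)) :
    ∃ ψ : ℕ → ℕ, StrictMono ψ ∧ ConvInf S (fun k => h (ψ k)) := by
  have hpt : ∀ k n : ℕ, ∃ p : Γ, wlen S p ≤ n ∧ (n ≤ wlen S (h k) →
      wlen S p = n ∧ wlen S (p⁻¹ * h k) + n = wlen S (h k)) := by
    intro k n
    by_cases hnk : n ≤ wlen S (h k)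
    · obtain ⟨p, hp1, hp2⟩ := wlen_geod hS (h k) n hnk
      exact ⟨p, le_of_eq hp1, fun _ => ⟨hp1, hp2⟩⟩
    · exact ⟨1, by simp [wlen_one], fun h => absurd h hnk⟩
  choose p hp1 hp using hpt
  obtain ⟨a, ψ, hψ, hlim⟩ := diag (ball_finite hS hfin) p hp1
  refine ⟨ψ, hψ, ?_⟩
  unfold ConvInf
  rw [tendsto_pair_iff (fun i j => gprod S 1 (h (ψ i)) (h (ψ j)))]
  intro M
  obtain ⟨n, hn⟩ := exists_nat_ge (M + δ)
  obtain ⟨N1, hN1⟩ := hlim n
  obtain ⟨N2, hN2⟩ := hlen n
  have key : ∀ i, max N1 N2 ≤ i → (n : ℝ) ≤ gprod S 1 (h (ψ i)) (a n) := by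
    intro i hi
    have h1 := hp (ψ i) n (hN2 _ ((le_max_right _ _).trans (hi.trans (hψ.id_le i))))
    rw [hN1 i ((le_max_left _ _).trans hi)] at h1
    rw [gprod_symm hS, gprod_one hS]
    have e1 : wlen S (a n) = n := h1.1
    have e2 : (wlen S ((a n)⁻¹ * h (ψ i)) : ℝ) + n = wlen S (h (ψ i)) := by exact_mod_cast h1.2
    rw [e1]
    linarith
  refine ⟨max N1 N2, fun i j hi hj => ?_⟩
  have a1 := key i hi
  have a2 := key j hj
  rw [gprod_symm hS] at a2
  have := hyp3 hδ a1 a2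
  linarith

lemma ConvInf.sub {x : ℕ → Γ} (h : ConvInf S x) {ψ : ℕ → ℕ} (hψ : StrictMono ψ) :
    ConvInf S (fun k => x (ψ k)) := by
  unfold ConvInf at h ⊢
  rw [tendsto_pair_iff (fun i j => gprod S 1 (x i) (x j))] at h
  rw [tendsto_pair_iff (fun i j => gprod S 1 (x (ψ i)) (x (ψ j)))]
  intro M
  obtain ⟨N, hN⟩ := h M
  exact ⟨N, fun i j hi hj => hN _ _ (hi.trans (hψ.id_le i)) (hj.trans (hψ.id_le j))⟩

include hS hδ0 hδ in
/-- Every boundary point is the endpoint of a geodesic ray. -/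
lemma exists_ray (hfin : S.Finite) (x : InfSeq S) :
    ∃ γ : ℕ → Γ, IsGeodRay S γ ∧ γ 0 = 1 ∧ ∃ h : ConvInf S γ, bmk S ⟨γ, h⟩ = bmk S x := by
  have hword := fun n => wlen_spec hS (x.1 n)
  choose l hl1 hl2 hl3 using hword
  have hp1 : ∀ n k, wlen S ((l n).take k).prod ≤ k := by
    intro n k
    have := wlen_le (S := S) ((l n).take k) (fun x hx => hl2 n x (List.mem_of_mem_take hx))
    exact this.trans (List.length_take_le _ _)
  have hgeo : ∀ n j k, j ≤ k → k ≤ wlen S (x.1 n) →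
      wlen S (((l n).take j).prod⁻¹ * ((l n).take k).prod) = k - j := by
    intro n j k hjk hk
    have e1 : (l n).take k = (l n).take j ++ ((l n).drop j).take (k - j) := by
      rw [← List.take_add, Nat.add_sub_cancel' hjk]
    have e2 : ((l n).take j).prod⁻¹ * ((l n).take k).prod = (((l n).drop j).take (k - j)).prod := by
      rw [e1, List.prod_append]; group
    have b1 : wlen S (((l n).take j).prod⁻¹ * ((l n).take k).prod) ≤ k - j := by
      rw [e2]
      have := wlen_le (S := S) (((l n).drop j).take (k - j))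
        (fun x hx => hl2 n x (List.mem_of_mem_drop (List.mem_of_mem_take hx)))
      exact this.trans (List.length_take_le _ _)
    have b2 := hp1 n j
    have b3 : wlen S (((l n).take k).prod⁻¹ * x.1 n) ≤ wlen S (x.1 n) - k := by
      have e3 : ((l n).take k).prod⁻¹ * x.1 n = ((l n).drop k).prod := by
        rw [← hl3 n]
        conv_lhs => rw [← List.take_append_drop k (l n)]
        rw [List.prod_append]
        have : ((l n).take k ++ (l n).drop k).take k = (l n).take k := by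
          rw [List.take_append_drop]
        rw [this]; group
      rw [e3]
      have := wlen_le (S := S) ((l n).drop k) (fun x hx => hl2 n x (List.mem_of_mem_drop hx))
      rwa [List.length_drop, hl1] at this
    have b4 := wlen_mul_le hS ((l n).take j).prod
      ((((l n).take j).prod⁻¹ * ((l n).take k).prod) * (((l n).take k).prod⁻¹ * x.1 n))
    have b5 := wlen_mul_le hS (((l n).take j).prod⁻¹ * ((l n).take k).prod)
      (((l n).take k).prod⁻¹ * x.1 n)
    have e4 : ((l n).take j).prod * ((((l n).take j).prod⁻¹ * ((l n).take k).prod) *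
        (((l n).take k).prod⁻¹ * x.1 n)) = x.1 n := by group
    rw [e4] at b4
    omega
  obtain ⟨a, ψ, hψ, hlim⟩ := diag (ball_finite hS hfin) (fun n k => ((l n).take k).prod) hp1
  have hxlen : ∀ M : ℕ, ∃ N, ∀ k, N ≤ k → M ≤ wlen S (x.1 (ψ k)) := by
    intro M
    obtain ⟨N, hN⟩ := (bequiv_def x x).1 x.2 M
    refine ⟨N, fun k hk => ?_⟩
    have := hN (ψ k) (ψ k) (hk.trans (hψ.id_le k)) (hk.trans (hψ.id_le k))
    rw [gprod_self hS] at this
    exact_mod_cast this
  have hray : ∀ j k, j ≤ k → wlen S ((a j)⁻¹ * a k) = k - j := by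
    intro j k hjk
    obtain ⟨N1, hN1⟩ := hlim j
    obtain ⟨N2, hN2⟩ := hlim k
    obtain ⟨N3, hN3⟩ := hxlen k
    obtain ⟨n, hn⟩ : ∃ n, n = max N1 (max N2 N3) := ⟨_, rfl⟩
    rw [← hN1 n (hn ▸ le_max_left _ _),
      ← hN2 n (hn ▸ (le_max_left _ _).trans (le_max_right _ _))]
    exact hgeo (ψ n) j k hjk (hN3 n (hn ▸ (le_max_right _ _).trans (le_max_right _ _)))
  have ha0 : a 0 = 1 := by
    obtain ⟨N1, hN1⟩ := hlim 0
    rw [← hN1 N1 le_rfl]; simp
  have hlen : ∀ k, wlen S (a k) = k := by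
    intro k
    have := hray 0 k (Nat.zero_le _)
    rw [ha0] at this
    simpa using this
  have hgeod : IsGeodRay S a := by
    intro j k
    rcases le_total j k with h | h
    · unfold wdist
      rw [hray j k h, abs_sub_comm, abs_of_nonneg]
      · push_cast [Nat.cast_sub h]; ring
      · have : (j : ℝ) ≤ k := by exact_mod_cast h
        linarith
    · rw [wdist_comm' hS]
      unfold wdist
      rw [hray k j h, abs_of_nonneg]
      · push_cast [Nat.cast_sub h]; ring
      · have : (k : ℝ) ≤ j := by exact_mod_cast h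
        linarith
  have hga : ∀ j k, j ≤ k → gprod S 1 (a j) (a k) = j := by
    intro j k hjk
    rw [gprod_one hS, hlen, hlen, hray j k hjk]
    push_cast [Nat.cast_sub hjk]; ring
  have hconv : ConvInf S a := by
    unfold ConvInf
    rw [tendsto_pair_iff (fun i j => gprod S 1 (a i) (a j))]
    intro M
    obtain ⟨n, hn⟩ := exists_nat_ge M
    refine ⟨n, fun i j hi hj => ?_⟩
    rcases le_total i j with h | h
    · rw [hga i j h]
      exact hn.trans (by exact_mod_cast hi)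
    · rw [gprod_symm hS, hga j i h]
      exact hn.trans (by exact_mod_cast hj)
  refine ⟨a, hgeod, ha0, hconv, ?_⟩
  refine (bmk_eq_iff hS hδ0 hδ _ _).2 ((bequiv_def _ _).2 ?_)
  intro M
  obtain ⟨k0, hk0⟩ := exists_nat_ge (M + 2 * δ)
  obtain ⟨N1, hN1⟩ := hlim k0
  obtain ⟨N2, hN2⟩ := hxlen k0
  obtain ⟨N3, hN3⟩ := (bequiv_def x x).1 x.2 k0
  refine ⟨max k0 N3, fun k m hk hm => ?_⟩
  show M ≤ gprod S 1 (a k) (x.1 m)
  obtain ⟨n, hn⟩ : ∃ n, n = max N1 (max N2 N3) := ⟨_, rfl⟩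
  have c1 : (k0 : ℝ) ≤ gprod S 1 (a k) (a k0) := by
    rw [gprod_symm hS, hga k0 k ((le_max_left _ _).trans hk)]
  have c2 : (k0 : ℝ) ≤ gprod S 1 (a k0) (x.1 (ψ n)) := by
    have hk0n := hN2 n (hn ▸ (le_max_left _ _).trans (le_max_right _ _))
    have h1 := hgeo (ψ n) k0 (wlen S (x.1 (ψ n))) hk0n le_rfl
    have h2 : ((l (ψ n)).take k0).prod = a k0 := hN1 n (hn ▸ le_max_left _ _)
    have h3 : ((l (ψ n)).take (wlen S (x.1 (ψ n)))).prod = x.1 (ψ n) := by
      rw [List.take_of_length_le (by rw [hl1]), hl3]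
    rw [h2, h3] at h1
    rw [gprod_one hS, hlen, h1]
    push_cast [Nat.cast_sub hk0n]
    linarith
  have c3 : (k0 : ℝ) ≤ gprod S 1 (x.1 (ψ n)) (x.1 m) := by
    apply hN3 _ _ _ ((le_max_right _ _).trans hm)
    exact (hn ▸ (le_max_right _ _).trans (le_max_right _ _) : N3 ≤ n).trans (hψ.id_le n)
  have := hyp4 hδ0 hδ c1 c2 c3
  linarith

end

end Pool.Agent.X185.CT
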