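import Pool.Agent.X185.CT.Free
import Pool.Agent.H322R3.HypGeom

set_option autoImplicit false

/-! Uniform continuity of Cannon-Thurston maps. -/

namespace Pool.Agent.X185.CT

open Pool.Agent.H322R3.Hyp Filter Topology

variable {r : ℕ}

lemma exists_limit_word (L : ℕ → List (Fin r × Bool)) (hL : ∀ k, k ≤ (L k).length)
    (hred : ∀ k, FreeGroup.IsReduced (L k)) :
    ∃ (p : Bdy r) (ψ : ℕ → ℕ), StrictMono ψ ∧ ∀ K : ℕ, ∃ N : ℕ, ∀ k, N ≤ k →
      preL p K <+: L (ψ k) := by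
  let _ : TopologicalSpace (Option (Fin r × Bool)) := ⊥
  have _ : DiscreteTopology (Option (Fin r × Bool)) := ⟨rfl⟩
  obtain ⟨a, ψ, hψ, hlim⟩ := CompactSpace.tendsto_subseq
    (fun k => (fun j => (L k)[j]? : ∀ _ : ℕ, Option (Fin r × Bool)))
  have hev : ∀ j : ℕ, ∃ N : ℕ, ∀ k, N ≤ k → (L (ψ k))[j]? = a j := by
    intro j
    have hlimn := (tendsto_pi_nhds.1 hlim) j
    have hev : ∀ᶠ k in atTop, (L (ψ k))[j]? = a j := by
      rw [nhds_discrete] at hlimn
      exact tendsto_pure.1 hlimn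
    exact eventually_atTop.1 hev
  choose N hN using hev
  have hlen : ∀ k, k ≤ (L (ψ k)).length := fun k => (hψ.id_le k).trans (hL _)
  have hsome : ∀ j, ∃ c, a j = some c := by
    intro j
    have h1 := hN j (max (N j) (j + 1)) (le_max_left _ _)
    have h2 := hlen (max (N j) (j + 1))
    have h3 : j < (L (ψ (max (N j) (j + 1)))).length := by
      have := le_max_right (N j) (j + 1); omega
    rw [List.getElem?_eq_getElem h3] at h1
    exact ⟨_, h1.symm⟩
  choose p hp using hsome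
  have hpN : ∀ j k, N j ≤ k → (L (ψ k))[j]? = some (p j) := by
    intro j k hk
    rw [hN j k hk, hp]
  have hpred : ∀ n, (p n).1 = (p (n + 1)).1 → (p n).2 = (p (n + 1)).2 := by
    intro n
    obtain ⟨k, hk⟩ : ∃ k, k = max (N n) (N (n + 1)) := ⟨_, rfl⟩
    have h1 := hpN n k (hk ▸ le_max_left _ _)
    have h2 := hpN (n + 1) k (hk ▸ le_max_right _ _)
    have h3 := hred (ψ k)
    unfold FreeGroup.IsReduced at h3
    rw [List.isChain_iff_getElem] at h3
    obtain ⟨h4, h5⟩ := List.getElem?_eq_some_iff.1 h1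
    obtain ⟨h6, h7⟩ := List.getElem?_eq_some_iff.1 h2
    have := h3 n (by omega)
    rw [h5, h7] at this
    exact this
  obtain ⟨P, hP⟩ : ∃ P : Bdy r, ∀ j, P.1 j = p j := ⟨⟨p, hpred⟩, fun _ => rfl⟩
  refine ⟨P, ψ, hψ, fun K => ?_⟩
  obtain ⟨M, hM⟩ : ∃ M, ∀ j < K, N j ≤ M :=
    ⟨(Finset.range K).sup N, fun j hj => Finset.le_sup (Finset.mem_range.2 hj)⟩
  refine ⟨M, fun k hk => ?_⟩
  rw [List.prefix_iff_eq_take, length_preL]
  apply List.ext_getElem?
  intro j
  rcases lt_or_ge j K with hj | hj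
  · rw [List.getElem?_take_of_lt hj, hpN j k ((hM j hj).trans hk)]
    simp [preL, hj, hP]
  · rw [List.getElem?_eq_none (by simpa using hj), List.getElem?_eq_none]
    rw [List.length_take]
    exact (min_le_left _ _).trans hj

section
variable {Γ : Type*} [Group Γ] {S : Set Γ} (hS : Subgroup.closure S = ⊤)
  {δ : ℝ} (hδ0 : 0 ≤ δ)
  (hδ : ∀ x y z : Γ, min (gprod S 1 x y) (gprod S 1 y z) - δ ≤ gprod S 1 x z)
  {i : FreeGroup (Fin r) →* Γ} {f : Bdy r → Boundary S} (hf : IsCT S i f)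

include hS hδ0 hδ hf in
theorem uct (R : ℝ) : ∃ K : ℕ, ∀ (u v : FreeGroup (Fin r)) (L : List (Fin r × Bool)),
    K ≤ L.length → L <+: u.toWord → L <+: v.toWord → R ≤ gprod S 1 (i u) (i v) := by
  by_contra hcon
  push Not at hcon
  choose u v L hL1 hL2 hL3 hL4 using hcon
  have hred : ∀ k, FreeGroup.IsReduced (L k) := by
    intro k
    have h1 := FreeGroup.isReduced_toWord (x := u k)
    obtain ⟨M, hM⟩ := hL2 k
    unfold FreeGroup.IsReduced at h1 ⊢
    rw [← hM] at h1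
    exact (List.isChain_append.1 h1).1
  obtain ⟨p, ψ, hψ, hlim⟩ := exists_limit_word L hL1 hred
  have hu : TendsTo (fun k => u (ψ k)) p := by
    intro K
    obtain ⟨N, hN⟩ := hlim K
    exact ⟨N, fun k hk => (hN k hk).trans (hL2 _)⟩
  have hv : TendsTo (fun k => v (ψ k)) p := by
    intro K
    obtain ⟨N, hN⟩ := hlim K
    exact ⟨N, fun k hk => (hN k hk).trans (hL3 _)⟩
  obtain ⟨h1, h1'⟩ := hf p _ hu
  obtain ⟨h2, h2'⟩ := hf p _ hv
  have h3 := (bmk_eq_iff hS hδ0 hδ _ _).1 (h1'.trans h2'.symm)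
  obtain ⟨N, hN⟩ := (bequiv_def _ _).1 h3 R
  have := hN N N le_rfl le_rfl
  exact absurd this (not_le.2 (hL4 (ψ N)))

end

end Pool.Agent.X185.CT
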